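import Mathlib

set_option autoImplicit false

namespace Pool.Agent.H.MP_5f3cbe_lc

open Metric Complex Set Filter Topology

lemma exists_log {F : ℂ → ℂ} {c l : ℂ} {R : ℝ} (hR : 0 < R)
    (hF : DifferentiableOn ℂ F (ball c R)) (h0 : ∀ z ∈ ball c R, F z ≠ 0) (hl : exp l = F c) :
    ∃ L : ℂ → ℂ, DifferentiableOn ℂ L (ball c R) ∧ L c = l ∧ ∀ z ∈ ball c R, exp (L z) = F z := by
  have hd : DifferentiableOn ℂ (fun z => deriv F z / F z) (ball c R) :=
    (hF.deriv isOpen_ball).div hF h0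
  obtain ⟨L, hLc, hL⟩ := hd.isExactOn_ball.with_val_at c l
  have hLd : DifferentiableOn ℂ L (ball c R) := fun z hz =>
    (hL z hz).differentiableAt.differentiableWithinAt
  refine ⟨L, hLd, hLc, ?_⟩
  have hk : ∀ z ∈ ball c R, HasDerivAt (fun z => F z * exp (-L z)) 0 z := by
    intro z hz
    have h1 : HasDerivAt F (deriv F z) z := (hF.differentiableAt (isOpen_ball.mem_nhds hz)).hasDerivAt
    have h2 := h1.fun_mul ((hL z hz).fun_neg.cexp)
    have h3 : deriv F z * exp (-L z) + F z * (exp (-L z) * -(deriv F z / F z)) = 0 := by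
      have := h0 z hz
      field_simp
      ring
    rwa [h3] at h2
  have hconst : ∀ z ∈ ball c R, F z * exp (-L z) = F c * exp (-L c) := by
    intro z hz
    refine isOpen_ball.is_const_of_deriv_eq_zero (𝕜 := ℂ) (convex_ball c R).isPreconnected
      (f := fun z => F z * exp (-L z))
      (fun w hw => (hk w hw).differentiableAt.differentiableWithinAt)
      (fun w hw => (hk w hw).deriv) hz (mem_ball_self hR)
  intro z hz
  have h := hconst z hz
  rw [hLc, ← hl, ← Complex.exp_add, add_neg_cancel, Complex.exp_zero, Complex.exp_neg] at h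
  have := Complex.exp_ne_zero (L z)
  field_simp at h
  exact h.symm

lemma bloch {h : ℂ → ℂ} {p : ℂ} {R : ℝ} (hR : 0 < R) (hh : DifferentiableOn ℂ h (ball p R)) :
    ∃ w : ℂ, ball w (R * ‖deriv h p‖ / 96) ⊆ h '' ball p R := by
  by_cases hd0 : deriv h p = 0
  · exact ⟨0, by simp [hd0]⟩
  have hdpos : 0 < ‖deriv h p‖ := norm_pos_iff.2 hd0
  have hd : DifferentiableOn ℂ (deriv h) (ball p R) := hh.deriv isOpen_ball
  have hsub : closedBall p (R / 2) ⊆ ball p R := closedBall_subset_ball (by linarith)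
  have hcont : ContinuousOn (fun z => (R / 2 - ‖z - p‖) * ‖deriv h z‖) (closedBall p (R / 2)) :=
    (by fun_prop : ContinuousOn (fun z : ℂ => R / 2 - ‖z - p‖) _).mul
      (hd.continuousOn.mono hsub).norm
  obtain ⟨z0, hz0, hmax⟩ := (isCompact_closedBall p (R / 2)).exists_isMaxOn
    ⟨p, mem_closedBall_self (by linarith)⟩ hcont
  have hM : R / 2 * ‖deriv h p‖ ≤ (R / 2 - ‖z0 - p‖) * ‖deriv h z0‖ := by
    have := hmax (mem_closedBall_self (by linarith : (0:ℝ) ≤ R / 2))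
    simpa using this
  obtain ⟨t, ht⟩ : ∃ t : ℝ, t = (R / 2 - ‖z0 - p‖) / 2 := ⟨_, rfl⟩
  obtain ⟨κ, hκ⟩ : ∃ κ : ℝ, κ = ‖deriv h z0‖ := ⟨_, rfl⟩
  have hz0' : ‖z0 - p‖ ≤ R / 2 := by simpa [dist_eq_norm] using hz0
  have hpos : 0 < (R / 2 - ‖z0 - p‖) * ‖deriv h z0‖ := lt_of_lt_of_le (by positivity) hM
  have htpos : 0 < t := by
    rw [ht]
    have : 0 < R / 2 - ‖z0 - p‖ := by
      by_contra hc
      have := mul_nonpos_of_nonpos_of_nonneg (not_lt.1 hc) (norm_nonneg (deriv h z0))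
      linarith
    linarith
  have hκpos : 0 < κ := by
    rw [hκ]
    exact (mul_pos_iff_of_pos_left (by linarith)).1 hpos
  have hball : ∀ z ∈ ball z0 t, ‖z - p‖ ≤ R / 2 - t := by
    intro z hz
    have h1 : ‖z - z0‖ < t := by simpa [dist_eq_norm] using hz
    have h2 : ‖z - p‖ ≤ ‖z - z0‖ + ‖z0 - p‖ := norm_sub_le_norm_sub_add_norm_sub z z0 p
    linarith
  have hsub2 : ball z0 t ⊆ ball p R := by
    intro z hz
    have := hball z hz
    rw [mem_ball, dist_eq_norm]
    linarith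
  have hbd : ∀ z ∈ ball z0 t, ‖deriv h z‖ ≤ 2 * κ := by
    intro z hz
    have h1 := hball z hz
    have h2 : z ∈ closedBall p (R / 2) := by
      rw [mem_closedBall, dist_eq_norm]; linarith
    have h3 : (R / 2 - ‖z - p‖) * ‖deriv h z‖ ≤ (R / 2 - ‖z0 - p‖) * ‖deriv h z0‖ := hmax h2
    have h4 : (R / 2 - ‖z0 - p‖) = 2 * t := by rw [ht]; ring
    rw [h4, ← hκ] at h3
    have h5 : t * ‖deriv h z‖ ≤ (R / 2 - ‖z - p‖) * ‖deriv h z‖ :=
      mul_le_mul_of_nonneg_right (by linarith) (norm_nonneg _)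
    have h6 : t * ‖deriv h z‖ ≤ t * (2 * κ) := by linarith
    exact le_of_mul_le_mul_left h6 htpos
  have hsch : ∀ z ∈ ball z0 (t / 3), ‖deriv h z - deriv h z0‖ ≤ κ / 2 ∨ t / 6 < ‖z - z0‖ := by
    intro z hz
    by_cases hc : t / 6 < ‖z - z0‖
    · exact Or.inr hc
    left
    have hz' : z ∈ ball z0 t := ball_subset_ball (by linarith) hz
    have := Complex.dist_le_div_mul_dist_of_mapsTo_ball (f := deriv h) (c := z0) (R₁ := t)
      (R₂ := 3 * κ) (hd.mono hsub2) (fun w hw => by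
        rw [mem_closedBall, dist_eq_norm]
        have h1 := hbd w hw
        have h2 := norm_sub_le (deriv h w) (deriv h z0)
        rw [← hκ] at h2
        linarith) hz'
    rw [dist_eq_norm, dist_eq_norm] at this
    have h3 : 3 * κ / t * ‖z - z0‖ ≤ 3 * κ / t * (t / 6) :=
      mul_le_mul_of_nonneg_left (not_lt.1 hc) (by positivity)
    have h4 : 3 * κ / t * (t / 6) = κ / 2 := by field_simp; ring
    linarith
  have hcb : closedBall z0 (t / 6) ⊆ ball z0 t := closedBall_subset_ball (by linarith)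
  have hmv : ∀ z ∈ closedBall z0 (t / 6), ‖(h z - deriv h z0 * z) - (h z0 - deriv h z0 * z0)‖ ≤
      κ / 2 * ‖z - z0‖ := by
    intro z hz
    refine (convex_closedBall z0 (t / 6)).norm_image_sub_le_of_norm_hasDerivWithin_le
      (f := fun z => h z - deriv h z0 * z) (f' := fun z => deriv h z - deriv h z0) ?_ ?_
      (mem_closedBall_self (by linarith)) hz
    · intro w hw
      have h1 : HasDerivAt h (deriv h w) w :=
        (hh.differentiableAt (isOpen_ball.mem_nhds (hsub2 (hcb hw)))).hasDerivAt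
      have h2 := h1.fun_sub ((hasDerivAt_id w).const_mul (deriv h z0))
      simpa using h2.hasDerivWithinAt
    · intro w hw
      have hw' : ‖w - z0‖ ≤ t / 6 := by simpa [dist_eq_norm] using hw
      rcases hsch w (by rw [mem_ball, dist_eq_norm]; linarith) with h1 | h1
      · exact h1
      · linarith
  have hlow : ∀ z ∈ closedBall z0 (t / 6), κ / 2 * ‖z - z0‖ ≤ ‖h z - h z0‖ := by
    intro z hz
    have h1 := hmv z hz
    have h2 : deriv h z0 * (z - z0) =
        (h z - h z0) - ((h z - deriv h z0 * z) - (h z0 - deriv h z0 * z0)) := by ring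
    have h3 : ‖deriv h z0 * (z - z0)‖ = κ * ‖z - z0‖ := by rw [norm_mul, hκ]
    have h4 := norm_sub_le (h z - h z0) ((h z - deriv h z0 * z) - (h z0 - deriv h z0 * z0))
    rw [← h2, h3] at h4
    linarith
  have hdc : DiffContOnCl ℂ h (ball z0 (t / 6)) := by
    apply DifferentiableOn.diffContOnCl
    rw [closure_ball _ (by linarith : t / 6 ≠ 0)]
    exact hh.mono (hcb.trans hsub2)
  have key := hdc.ball_subset_image_closedBall (ε := κ / 2 * (t / 6)) (by linarith)
    (fun z hz => by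
      have h1 := hlow z (sphere_subset_closedBall hz)
      have h2 : ‖z - z0‖ = t / 6 := by simpa [dist_eq_norm] using hz
      rwa [h2] at h1)
    (by
      have h1 : ∀ᶠ z in 𝓝[≠] z0, h z ≠ h z0 := by
        have h2 : ∀ᶠ z in 𝓝[≠] z0, z ∈ closedBall z0 (t / 6) :=
          mem_nhdsWithin_of_mem_nhds (closedBall_mem_nhds z0 (by linarith))
        filter_upwards [h2, self_mem_nhdsWithin] with z hz hne heq
        have h3 := hlow z hz
        rw [heq, sub_self, norm_zero] at h3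
        have h4 : 0 < ‖z - z0‖ := norm_pos_iff.2 (sub_ne_zero.2 hne)
        have : 0 < κ / 2 * ‖z - z0‖ := by positivity
        linarith
      exact h1.frequently.filter_mono nhdsWithin_le_nhds)
  refine ⟨h z0, ?_⟩
  refine (ball_subset_ball ?_).trans (key.trans (image_mono (hcb.trans hsub2)))
  have h4 : (R / 2 - ‖z0 - p‖) = 2 * t := by rw [ht]; ring
  rw [h4, ← hκ] at hM
  linarith

lemma exists_cos_int (w : ℂ) : ∃ v ∈ ball w 5, ∃ n : ℤ, cos v = n := by
  have hc2 : (3 : ℝ) ≤ Real.cosh 2 := by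
    rw [Real.cosh_eq]
    have h1 : (2.7 : ℝ) < Real.exp 1 := lt_trans (by norm_num) Real.exp_one_gt_d9
    have h2 : Real.exp 2 = Real.exp 1 * Real.exp 1 := by rw [← Real.exp_add]; norm_num
    have h3 := Real.exp_pos (-2)
    nlinarith
  have hy : ∀ y : ℝ, 0 ≤ y → ∃ t, |t - y| ≤ 2 ∧ ∃ n : ℤ, Real.cosh t = n := by
    intro y hy
    have h1 : Real.cosh y + 1 ≤ Real.cosh (y + 2) := by
      rw [Real.cosh_add]
      have h2 := Real.one_le_cosh y
      have h3 : 0 ≤ Real.sinh y := Real.sinh_nonneg_iff.2 hy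
      have h4 : 0 ≤ Real.sinh 2 := Real.sinh_nonneg_iff.2 (by norm_num)
      nlinarith
    have h5 : ((⌈Real.cosh y⌉ : ℤ) : ℝ) ∈ Icc (Real.cosh y) (Real.cosh (y + 2)) :=
      ⟨Int.le_ceil _, by linarith [Int.ceil_lt_add_one (Real.cosh y)]⟩
    obtain ⟨t, ht, ht'⟩ := intermediate_value_Icc (by linarith : y ≤ y + 2)
      Real.continuous_cosh.continuousOn h5
    exact ⟨t, abs_le.2 ⟨by linarith [ht.1], by linarith [ht.2]⟩, _, ht'⟩
  have hy' : ∃ t, |t - w.im| ≤ 2 ∧ ∃ n : ℤ, Real.cosh t = n := by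
    rcases le_total 0 w.im with h | h
    · exact hy _ h
    · obtain ⟨t, ht, n, hn⟩ := hy (-w.im) (by linarith)
      refine ⟨-t, ?_, n, by rw [Real.cosh_neg, hn]⟩
      rw [← abs_neg]
      convert ht using 2
      ring
  obtain ⟨t, ht, n, hn⟩ := hy'
  obtain ⟨m, hm⟩ : ∃ m : ℤ, |(m : ℝ) * Real.pi - w.re| ≤ 2 := by
    refine ⟨round (w.re / Real.pi), ?_⟩
    have h1 := abs_sub_round (w.re / Real.pi)
    have hp := Real.pi_pos
    have h2 : (round (w.re / Real.pi) : ℝ) * Real.pi - w.re =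
        -((w.re / Real.pi - round (w.re / Real.pi)) * Real.pi) := by field_simp; ring
    rw [h2, abs_neg, abs_mul, abs_of_pos hp]
    have := Real.pi_le_four
    nlinarith [abs_nonneg (w.re / Real.pi - round (w.re / Real.pi))]
  refine ⟨(m : ℂ) * Real.pi + t * I, ?_, (-1) ^ m.natAbs * n, ?_⟩
  · rw [mem_ball, dist_eq_norm]
    have := Complex.norm_le_abs_re_add_abs_im ((m : ℂ) * Real.pi + t * I - w)
    simp at this
    linarith
  · have hc : cos ((m : ℂ) * Real.pi) = (((-1 : ℝ) ^ m : ℝ) : ℂ) := by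
      rw [← Real.cos_int_mul_pi m]; simp
    rw [Complex.cos_add_mul_I, Complex.sin_int_mul_pi, hc,
      ← Complex.ofReal_cosh, hn]
    push_cast
    rcases Int.even_or_odd m with h | h
    · rw [h.neg_one_zpow, (Int.natAbs_even.2 h).neg_one_pow]; simp
    · rw [h.neg_one_zpow, (Int.natAbs_odd.2 h).neg_one_pow]; simp

lemma landau {p a : ℂ} {R : ℝ} (hR : 0 < R) (ha : a ≠ 0) :
    ∃ M : ℝ, ∀ g : ℂ → ℂ, DifferentiableOn ℂ g (ball p R) → (∀ z ∈ ball p R, g z ≠ 0) →
      (∀ z ∈ ball p R, g z ≠ 1) → g p = a → ‖deriv g p‖ ≤ M := by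
  have hpi : (2 * Real.pi * I : ℂ) ≠ 0 := Complex.two_pi_I_ne_zero
  obtain ⟨l, hl⟩ : ∃ l : ℂ, l = log a / (2 * Real.pi * I) := ⟨_, rfl⟩
  refine ⟨‖a‖ * ‖(2 * Real.pi * I : ℂ)‖ * ((‖1 - l ^ 2‖ + 1) * (480 / R)), ?_⟩
  intro g hg h0 h1 hga
  obtain ⟨L0, hL0d, hL0p, hL0⟩ := exists_log (l := log a) hR hg h0 (by rw [hga, exp_log ha])
  obtain ⟨L, hL⟩ : ∃ L : ℂ → ℂ, L = fun z => L0 z / (2 * Real.pi * I) := ⟨_, rfl⟩
  have hLd : DifferentiableOn ℂ L (ball p R) := by rw [hL]; exact hL0d.div_const _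
  have hLp : L p = l := by rw [hL, hl]; simp only [hL0p]
  have hLe : ∀ z ∈ ball p R, exp (2 * Real.pi * I * L z) = g z := by
    intro z hz
    rw [← hL0 z hz, hL]
    congr 1
    field_simp
  have hLn : ∀ z ∈ ball p R, ∀ n : ℤ, L z ≠ n := by
    intro z hz n hn
    apply h1 z hz
    rw [← hLe z hz, hn, mul_comm, Complex.exp_int_mul_two_pi_mul_I]
  have hsq : ∀ z ∈ ball p R, 1 - L z ^ 2 ≠ 0 := by
    intro z hz h
    have h2 : (L z - 1) * (L z + 1) = 0 := by linear_combination -h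
    rcases mul_eq_zero.1 h2 with h3 | h3
    · exact hLn z hz 1 (by push_cast; linear_combination h3)
    · exact hLn z hz (-1) (by push_cast; linear_combination h3)
  obtain ⟨S, hSd, -, hS⟩ := exists_log (F := fun z => 1 - L z ^ 2) (l := log (1 - L p ^ 2)) hR
    ((differentiableOn_const _).sub (hLd.pow 2)) hsq (exp_log (hsq p (mem_ball_self hR)))
  have hprod : ∀ z ∈ ball p R, (L z + I * exp (S z / 2)) * (L z - I * exp (S z / 2)) = 1 := by
    intro z hz
    have h2 : exp (S z / 2) * exp (S z / 2) = 1 - L z ^ 2 := by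
      rw [← Complex.exp_add, add_halves, hS z hz]
    linear_combination h2 - exp (S z / 2) ^ 2 * Complex.I_mul_I
  have hne : ∀ z ∈ ball p R, L z + I * exp (S z / 2) ≠ 0 := fun z hz =>
    left_ne_zero_of_mul_eq_one (hprod z hz)
  obtain ⟨K, hKd, -, hK⟩ := exists_log (F := fun z => L z + I * exp (S z / 2))
    (l := log (L p + I * exp (S p / 2))) hR
    (hLd.add ((hSd.div_const 2).cexp.const_mul I)) hne (exp_log (hne p (mem_ball_self hR)))
  obtain ⟨h, hh⟩ : ∃ h : ℂ → ℂ, h = fun z => -I * K z := ⟨_, rfl⟩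
  have hhd : DifferentiableOn ℂ h (ball p R) := by rw [hh]; exact hKd.const_mul _
  have hcos : ∀ z ∈ ball p R, cos (h z) = L z := by
    intro z hz
    have h2 : h z * I = K z := by rw [hh]; linear_combination (-K z) * Complex.I_mul_I
    have h3 : -h z * I = -K z := by rw [← h2]; ring
    have h4 : exp (-K z) = L z - I * exp (S z / 2) := by
      rw [Complex.exp_neg, hK z hz]
      exact (eq_inv_of_mul_eq_one_right (hprod z hz)).symm
    rw [Complex.cos, h2, h3, h4, hK z hz]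
    ring
  have hb : ‖deriv h p‖ ≤ 480 / R := by
    by_contra hc
    push Not at hc
    obtain ⟨w, hw⟩ := bloch hR hhd
    obtain ⟨v, hv, n, hn⟩ := exists_cos_int w
    have h5 : (5 : ℝ) ≤ R * ‖deriv h p‖ / 96 := by
      rw [div_lt_iff₀ hR] at hc
      linarith
    obtain ⟨z, hz, hzv⟩ := hw (ball_subset_ball h5 hv)
    exact hLn z hz n (by rw [← hcos z hz, hzv, hn])
  have hev : g =ᶠ[𝓝 p] fun z => exp (2 * Real.pi * I * cos (h z)) := by
    filter_upwards [ball_mem_nhds p hR] with z hz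
    rw [hcos z hz, hLe z hz]
  have hd1 : HasDerivAt h (deriv h p) p :=
    (hhd.differentiableAt (ball_mem_nhds p hR)).hasDerivAt
  have hd2 := ((hd1.ccos).const_mul (2 * Real.pi * I)).cexp
  rw [hev.deriv_eq, hd2.deriv, hcos p (mem_ball_self hR), hLe p (mem_ball_self hR), hga,
    norm_mul a, norm_mul (2 * Real.pi * I : ℂ), norm_mul (-sin (h p)), norm_neg, mul_assoc ‖a‖]
  have hs : ‖sin (h p)‖ ≤ ‖1 - l ^ 2‖ + 1 := by
    have h6 : sin (h p) ^ 2 = 1 - l ^ 2 := by
      rw [← hLp, ← hcos p (mem_ball_self hR), Complex.sin_sq]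
    rw [← h6, norm_pow]
    nlinarith [norm_nonneg (sin (h p))]
  gcongr

lemma harnack {G : ℂ → ℂ} {R : ℝ} (hG : DifferentiableOn ℂ G (ball 0 R))
    (h0 : ∀ z ∈ ball (0:ℂ) R, 0 ≤ (G z).re) {z : ℂ} (hz : z ∈ ball (0:ℂ) R) :
    (R - ‖z‖) * (G 0).re ≤ (R + ‖z‖) * (G z).re := by
  have hzR : ‖z‖ < R := by simpa using hz
  have hR : 0 < R := lt_of_le_of_lt (norm_nonneg _) hzR
  have ha0 := h0 0 (mem_ball_self hR)
  rcases ha0.eq_or_lt with ha | ha
  · rw [← ha, mul_zero]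
    exact mul_nonneg (by positivity) (h0 z hz)
  obtain ⟨a, haG⟩ : ∃ a, a = G 0 := ⟨_, rfl⟩
  rw [← haG] at ha ⊢
  have hden : ∀ w ∈ ball (0:ℂ) R, G w + (starRingEnd ℂ) a ≠ 0 := by
    intro w hw h
    have := congrArg Complex.re h
    simp at this
    linarith [h0 w hw]
  obtain ⟨W, hW⟩ : ∃ W : ℂ → ℂ, W = fun w => (G w - a) / (G w + (starRingEnd ℂ) a) := ⟨_, rfl⟩
  have hWd : DifferentiableOn ℂ W (ball 0 R) := by
    rw [hW]; exact (hG.sub_const a).div (hG.add_const _) hden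
  have hW0 : W 0 = 0 := by rw [hW]; simp [haG]
  have hs := Complex.dist_le_div_mul_dist_of_mapsTo_ball (R₂ := 1) hWd (fun w hw => by
    rw [hW0, mem_closedBall, dist_zero_right, hW]
    simp only [norm_div]
    apply div_le_one_of_le₀ _ (norm_nonneg _)
    apply le_of_sq_le_sq _ (norm_nonneg _)
    rw [Complex.sq_norm, Complex.sq_norm, Complex.normSq_apply, Complex.normSq_apply]
    simp
    nlinarith [h0 w hw]) hz
  rw [hW0, dist_zero_right, dist_zero_right] at hs
  obtain ⟨w, hw⟩ : ∃ w, w = W z := ⟨_, rfl⟩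
  rw [← hw] at hs
  have h1 : G z * (1 - w) = a + w * (starRingEnd ℂ) a := by
    have := hden z hz
    rw [hw, hW]
    field_simp
    ring
  have h2 : (G z).re * ‖1 - w‖ ^ 2 = a.re * (1 - ‖w‖ ^ 2) := by
    have h3 := congrArg (fun u => (u * (starRingEnd ℂ) (1 - w)).re) h1
    simp only [mul_assoc, Complex.mul_conj] at h3
    rw [Complex.sq_norm, Complex.sq_norm w]
    simp [Complex.normSq_apply] at h3 ⊢
    linarith
  have h4 : ‖1 - w‖ ≤ 1 + ‖w‖ := by simpa using norm_sub_le 1 w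
  have h5 : R * ‖w‖ ≤ ‖z‖ := by
    have := mul_le_mul_of_nonneg_left hs hR.le
    rwa [← mul_assoc, mul_one_div_cancel hR.ne', one_mul] at this
  have hGz := h0 z hz
  have hwn := norm_nonneg w
  have h6 : a.re * (1 - ‖w‖) ≤ (G z).re * (1 + ‖w‖) := by
    have h7 : (G z).re * ‖1 - w‖ ^ 2 ≤ (G z).re * (1 + ‖w‖) ^ 2 := by gcongr
    have h8 : (a.re * (1 - ‖w‖)) * (1 + ‖w‖) ≤ ((G z).re * (1 + ‖w‖)) * (1 + ‖w‖) := by
      nlinarith
    exact le_of_mul_le_mul_right h8 (by linarith)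
  nlinarith

end Pool.Agent.H.MP_5f3cbe_lc
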