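import Pool.Agent.H.MP_5f3cbe_lc.A

set_option autoImplicit false

namespace Pool.Agent.H.MP_5f3cbe_lc

open Metric Complex Set Filter Topology

lemma fourier_nat (n : ℕ) (x : AddCircle (1:ℝ)) : fourier (n : ℤ) x = (fourier 1 x) ^ n := by
  induction n with
  | zero => simp
  | succ n ih => rw [Nat.cast_succ, fourier_add, ih, pow_succ]

lemma majorant {u : ℂ → ℝ} {r ε : ℝ} (hr : 0 < r) (hε : 0 < ε) (hu : ContinuousOn u (sphere 0 r)) :
    ∃ W : ℂ → ℂ, Differentiable ℂ W ∧ ∀ z ∈ sphere (0:ℂ) r, u z ≤ (W z).re ∧ (W z).re ≤ u z + ε := by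
  haveI : Fact ((0:ℝ) < 1) := ⟨one_pos⟩
  have hmem : ∀ x : AddCircle (1:ℝ), (r : ℂ) * fourier 1 x ∈ sphere (0:ℂ) r := by
    intro x
    rw [mem_sphere, dist_zero_right, norm_mul, fourier_apply, Circle.norm_coe, mul_one,
      Complex.norm_real, Real.norm_eq_abs, abs_of_pos hr]
  let U : C(AddCircle (1:ℝ), ℂ) := ⟨fun x => (u ((r : ℂ) * fourier 1 x) : ℂ),
    Complex.continuous_ofReal.comp
      (hu.comp_continuous (continuous_const.mul (fourier 1).continuous) hmem)⟩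
  have hU : U ∈ (Submodule.span ℂ (range <| @fourier (1:ℝ))).topologicalClosure := by
    rw [span_fourier_closure_eq_top]; trivial
  obtain ⟨t, ht, htU⟩ := Metric.mem_closure_iff.1 hU (ε / 2) (by linarith)
  have hPQ : ∃ P Q : ℂ → ℂ, Differentiable ℂ P ∧ Differentiable ℂ Q ∧
      ∀ x, t x = P (fourier 1 x) + (starRingEnd ℂ) (Q (fourier 1 x)) := by
    clear htU
    induction ht using Submodule.span_induction with
    | mem f hf =>
      obtain ⟨n, rfl⟩ := hf
      obtain ⟨m, rfl | rfl⟩ := Int.eq_nat_or_neg n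
      · exact ⟨fun z => z ^ m, fun _ => 0, by fun_prop, by fun_prop, fun x => by
          rw [fourier_nat, map_zero, add_zero]⟩
      · exact ⟨fun _ => 0, fun z => z ^ m, by fun_prop, by fun_prop, fun x => by
          rw [fourier_neg, fourier_nat, zero_add]⟩
    | zero => exact ⟨fun _ => 0, fun _ => 0, by fun_prop, by fun_prop, fun x => by simp⟩
    | add f g _ _ hf hg =>
      obtain ⟨P, Q, hP, hQ, h⟩ := hf
      obtain ⟨P', Q', hP', hQ', h'⟩ := hg
      exact ⟨fun z => P z + P' z, fun z => Q z + Q' z, hP.add hP', hQ.add hQ', fun x => by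
        rw [ContinuousMap.add_apply, h, h', map_add]; ring⟩
    | smul c f _ hf =>
      obtain ⟨P, Q, hP, hQ, h⟩ := hf
      exact ⟨fun z => c * P z, fun z => (starRingEnd ℂ) c * Q z, hP.const_mul _, hQ.const_mul _,
        fun x => by rw [ContinuousMap.smul_apply, h, map_mul, Complex.conj_conj, smul_eq_mul]; ring⟩
  obtain ⟨P, Q, hP, hQ, h⟩ := hPQ
  refine ⟨fun z => P (z / r) + Q (z / r) + (ε / 2 : ℝ), by fun_prop, ?_⟩
  intro z hz
  have hz' : ‖z‖ = r := by simpa using hz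
  have hr' : (r : ℂ) ≠ 0 := Complex.ofReal_ne_zero.2 hr.ne'
  have hx : (r : ℂ) * fourier 1 ((arg z / (2 * Real.pi) : ℝ) : AddCircle (1:ℝ)) = z := by
    rw [fourier_coe_apply]
    conv_rhs => rw [← Complex.norm_mul_exp_arg_mul_I z, hz']
    congr 2
    have : (Real.pi : ℂ) ≠ 0 := Complex.ofReal_ne_zero.2 Real.pi_ne_zero
    push_cast
    field_simp
  obtain ⟨x, hx⟩ : ∃ x : AddCircle (1:ℝ), (r : ℂ) * fourier 1 x = z := ⟨_, hx⟩
  have hx2 : z / r = fourier 1 x := by rw [← hx]; field_simp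
  have h1 : dist (U x) (t x) < ε / 2 := lt_of_le_of_lt (ContinuousMap.dist_apply_le_dist x) htU
  have h2 : U x = (u z : ℂ) := by rw [← hx]; rfl
  rw [h2, h x, dist_eq_norm, ← hx2] at h1
  have h3 := abs_le.1 ((Complex.abs_re_le_norm _).trans h1.le)
  simp only [sub_re, add_re, ofReal_re, conj_re] at h3 ⊢
  constructor <;> linarith [h3.1, h3.2]

lemma avg_re {G : ℂ → ℂ} {r : ℝ} (hr : 0 < r) (hG : DifferentiableOn ℂ G (closedBall 0 r)) :
    Real.circleAverage (fun z => (G z).re) 0 r = (G 0).re := by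
  have h1 : DiffContOnCl ℂ G (ball 0 |r|) := by
    apply DifferentiableOn.diffContOnCl
    rw [abs_of_pos hr, closure_ball _ hr.ne']
    exact hG
  have h2 : CircleIntegrable G 0 r :=
    (hG.continuousOn.mono sphere_subset_closedBall).circleIntegrable hr.le
  have := Complex.reCLM.circleAverage_comp_comm h2
  rw [h1.circleAverage] at this
  exact this

def NA (f : ℂ → ℂ) : Prop :=
  ∃ φ : ℂ → ℂ, DifferentiableOn ℂ φ (ball 0 1) ∧ ∃ q ∈ ball (0:ℂ) 1, ∃ k : ℕ, 1 ≤ k ∧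
    ∃ r0 : ℝ, r0 < 1 ∧ (∀ p ∈ ball (0:ℂ) 1, ‖φ p‖ ^ 2 < 1) ∧
      ∀ r : ℝ, r0 < r → r < 1 → ∃ E : ℂ → ℂ, DifferentiableOn ℂ E (ball 0 1) ∧
        (∀ p ∈ ball (0:ℂ) 1, E p ≠ 0) ∧
        (∀ p ∈ ball (0:ℂ) 1, ‖φ p‖ ^ 2 ≤ r * r → 1 ≤ ‖E p‖ ^ 2 ∧ ‖f p‖ ^ 2 ≤ ‖E p‖ ^ 2) ∧
        ‖E q‖ ^ 2 * (1 - r) ^ k ≤ 1

lemma contPL {f : ℂ → ℂ} (hf : DifferentiableOn ℂ f (ball 0 1)) {r : ℝ} (hr : r < 1) :
    ContinuousOn (fun z => Real.posLog ‖f z‖) (sphere 0 r) :=
  Real.continuous_posLog.comp_continuousOn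
    (hf.continuousOn.mono (sphere_subset_closedBall.trans (closedBall_subset_ball hr))).norm

lemma log_two_le {r : ℝ} (h1 : 1 / 2 ≤ r) (h2 : r < 1) : Real.log 2 ≤ Real.log (1 - r)⁻¹ := by
  apply Real.log_le_log (by norm_num)
  rw [le_inv_comm₀ (by norm_num) (by linarith)]
  linarith

lemma na_of_bigO {f : ℂ → ℂ} (hf : DifferentiableOn ℂ f (ball 0 1))
    (h : Asymptotics.IsBigO (𝓝[<] (1:ℝ))
      (fun r : ℝ => Real.circleAverage (fun z => Real.posLog ‖f z‖) 0 r)
      (fun r : ℝ => Real.log (1 - r)⁻¹)) : NA f := by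
  obtain ⟨C, hC, h⟩ := h.exists_pos
  obtain ⟨r1, hr1, hsub⟩ := mem_nhdsLT_iff_exists_Ioo_subset.1 h.bound
  refine ⟨id, differentiableOn_id, 0, mem_ball_self one_pos, ⌈2 * C + 2⌉₊ + 1, by omega,
    max r1 (1 / 2), max_lt hr1 (by norm_num), fun p hp => ?_, fun r hr0 hr1' => ?_⟩
  · have : ‖p‖ < 1 := by simpa using hp
    simp only [id]
    nlinarith [norm_nonneg p]
  have hr2 : 1 / 2 < r := lt_of_le_of_lt (le_max_right _ _) hr0
  have hrp : 0 < r := by linarith
  have hl2 := log_two_le hr2.le hr1'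
  have hlp : 0 < Real.log (1 - r)⁻¹ := lt_of_lt_of_le (Real.log_pos (by norm_num)) hl2
  have hT := hsub ⟨lt_of_le_of_lt (le_max_left _ _) hr0, hr1'⟩
  simp only [mem_setOf_eq, Real.norm_eq_abs, abs_of_pos hlp] at hT
  obtain ⟨W, hW, hWu⟩ := majorant hrp hlp (contPL hf hr1')
  have hmax : ∀ g : ℂ → ℂ, DifferentiableOn ℂ g (ball 0 1) →
      (∀ z ∈ sphere (0:ℂ) r, ‖g z‖ ≤ Real.exp (W z).re) →
      ∀ z ∈ closedBall (0:ℂ) r, ‖g z‖ ≤ ‖exp (W z)‖ := by
    intro g hg hb z hz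
    have h1 : DiffContOnCl ℂ (fun z => g z * exp (-W z)) (ball 0 r) := by
      apply DifferentiableOn.diffContOnCl
      rw [closure_ball _ hrp.ne']
      exact (hg.mono (closedBall_subset_ball hr1')).mul hW.neg.cexp.differentiableOn
    have h2 := Complex.norm_le_of_forall_mem_frontier_norm_le isBounded_ball h1 (C := 1)
      (fun w hw => by
        rw [frontier_ball _ hrp.ne'] at hw
        rw [norm_mul, Complex.norm_exp, neg_re, Real.exp_neg, ← div_eq_mul_inv,
          div_le_one (Real.exp_pos _)]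
        exact hb w hw) (z := z) (by rwa [closure_ball _ hrp.ne'])
    rwa [norm_mul, Complex.norm_exp, neg_re, Real.exp_neg, ← div_eq_mul_inv,
      div_le_one (Real.exp_pos _), ← Complex.norm_exp] at h2
  refine ⟨fun z => exp (W z), hW.cexp.differentiableOn, fun p _ => Complex.exp_ne_zero _,
    fun p _ hp => ?_, ?_⟩
  · have hp' : p ∈ closedBall (0:ℂ) r := by
      rw [mem_closedBall, dist_zero_right]
      exact le_of_sq_le_sq (by simpa [sq] using hp) hrp.le
    constructor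
    · have := hmax (fun _ => 1) (differentiableOn_const _) (fun z hz => by
        rw [norm_one]
        exact Real.one_le_exp (Real.posLog_nonneg.trans (hWu z hz).1)) p hp'
      rw [norm_one] at this
      nlinarith
    · have := hmax f hf (fun z hz => by
        have h1 := (hWu z hz).1
        rcases (norm_nonneg (f z)).eq_or_lt with h2 | h2
        · rw [← h2]; exact (Real.exp_pos _).le
        · rw [← Real.log_le_iff_le_exp h2]
          exact (le_max_right _ _).trans h1) p hp'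
      gcongr
  · have h1 : (W 0).re ≤ (C + 1) * Real.log (1 - r)⁻¹ := by
      rw [← avg_re hrp hW.differentiableOn]
      have h2 : CircleIntegrable (fun z => Real.posLog ‖f z‖) 0 r :=
        (contPL hf hr1').circleIntegrable hrp.le
      have h3 := Real.circleAverage_mono (c := 0) (R := r) (f₁ := fun z => (W z).re)
        (f₂ := fun z => Real.posLog ‖f z‖ + Real.log (1 - r)⁻¹)
        ((Complex.continuous_re.comp hW.continuous).continuousOn.circleIntegrable hrp.le)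
        (h2.add (circleIntegrable_const _ _ _))
        (fun z hz => (hWu z (by rwa [abs_of_pos hrp] at hz)).2)
      rw [Real.circleAverage_fun_add h2 (circleIntegrable_const _ _ _),
        Real.circleAverage_const] at h3
      linarith [le_abs_self (Real.circleAverage (fun z => Real.posLog ‖f z‖) 0 r)]
    have h4 : (2 * C + 2 : ℝ) ≤ ((⌈2 * C + 2⌉₊ + 1 : ℕ) : ℝ) := by
      push_cast; linarith [Nat.le_ceil (2 * C + 2)]
    have h5 : (1 - r) = Real.exp (-Real.log (1 - r)⁻¹) := by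
      rw [Real.log_inv, neg_neg, Real.exp_log (by linarith)]
    rw [Complex.norm_exp, ← Real.exp_nat_mul]
    conv_lhs => rw [h5]
    rw [← Real.exp_nat_mul, ← Real.exp_add, Real.exp_le_one_iff]
    push_cast at h4 ⊢
    nlinarith

lemma bigO_of_na {f : ℂ → ℂ} (hf : DifferentiableOn ℂ f (ball 0 1)) (h : NA f) :
    Asymptotics.IsBigO (𝓝[<] (1:ℝ))
      (fun r : ℝ => Real.circleAverage (fun z => Real.posLog ‖f z‖) 0 r)
      (fun r : ℝ => Real.log (1 - r)⁻¹) := by
  obtain ⟨φ, hφ, q, hq, k, -, r0, hr0, hφ1, h⟩ := h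
  have hφ2 : ∀ p ∈ ball (0:ℂ) 1, ‖φ p‖ < 1 := fun p hp => by
    nlinarith [hφ1 p hp, norm_nonneg (φ p)]
  obtain ⟨c, hc⟩ : ∃ c : ℝ, c = (1 - ‖φ 0‖) / 2 := ⟨_, rfl⟩
  have hcp : 0 < c := by rw [hc]; linarith [hφ2 0 (mem_ball_self one_pos)]
  have hc1 : c ≤ 1 := by rw [hc]; linarith [norm_nonneg (φ 0)]
  have hq1 : ‖q‖ < 1 := by simpa using hq
  obtain ⟨δ, hδ⟩ : ∃ δ : ℝ, δ = (1 - ‖q‖) / 2 := ⟨_, rfl⟩
  have hδp : 0 < δ := by rw [hδ]; linarith
  have hsp : ∀ z ∈ ball (0:ℂ) 1, c * (1 - ‖z‖) ≤ 1 - ‖φ z‖ := by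
    intro z hz
    obtain ⟨ζ, hζ, hζz⟩ := Complex.exists_norm_eq_mul_self (φ z)
    have hre : ∀ w, 1 - ‖φ w‖ ≤ (1 - ζ * φ w).re := by
      intro w
      have h1 := Complex.re_le_norm (ζ * φ w)
      rw [norm_mul, hζ, one_mul] at h1
      rw [sub_re, one_re]
      linarith
    have h2 := harnack (G := fun w => 1 - ζ * φ w) (R := 1)
      ((differentiableOn_const _).sub (hφ.const_mul ζ))
      (fun w hw => by linarith [hre w, hφ2 w hw]) hz
    have h3 : (1 - ζ * φ z).re = 1 - ‖φ z‖ := by rw [← hζz]; simp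
    have h4 := hre 0
    have hz1 : ‖z‖ < 1 := by simpa using hz
    have h5 := hφ2 z hz
    simp only [h3] at h2
    rw [hc]
    nlinarith
  have hl2 : 0 < Real.log 2 := Real.log_pos (by norm_num)
  have hlc : 0 ≤ -Real.log c := by linarith [Real.log_nonpos hcp.le hc1]
  refine Asymptotics.IsBigO.of_bound (k / δ * (1 + -Real.log c / Real.log 2)) ?_
  have hev : Ioo (max r0 (max (1 / 2) ((1 + ‖q‖) / 2))) 1 ∈ 𝓝[<] (1:ℝ) :=
    Ioo_mem_nhdsLT (max_lt hr0 (max_lt (by norm_num) (by linarith)))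
  filter_upwards [hev] with ρ hρ
  obtain ⟨hρ0, hρ1⟩ := hρ
  rw [max_lt_iff, max_lt_iff] at hρ0
  obtain ⟨hρa, hρb, hρc⟩ := hρ0
  have hρp : 0 < ρ := by linarith
  obtain ⟨E, hE, hE0, hEm, hEq⟩ := h (1 - c * (1 - ρ)) (by nlinarith) (by nlinarith)
  obtain ⟨G, hG, -, hGE⟩ := exists_log (l := log (E 0)) one_pos hE hE0
    (exp_log (hE0 0 (mem_ball_self one_pos)))
  have hsub : closedBall (0:ℂ) ρ ⊆ ball 0 1 := closedBall_subset_ball hρ1
  have hin : ∀ z ∈ closedBall (0:ℂ) ρ, Real.posLog ‖f z‖ ≤ (G z).re := by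
    intro z hz
    have hz1 : ‖z‖ ≤ ρ := by simpa using hz
    have h1 := hsp z (hsub hz)
    have h2 : ‖φ z‖ ≤ 1 - c * (1 - ρ) := by nlinarith
    obtain ⟨h3, h4⟩ := hEm z (hsub hz) (by nlinarith [norm_nonneg (φ z)])
    rw [← hGE z (hsub hz), Complex.norm_exp] at h3 h4
    have h5 : 1 ≤ Real.exp (G z).re := le_of_sq_le_sq (by simpa using h3) (Real.exp_pos _).le
    have h6 : ‖f z‖ ≤ Real.exp (G z).re := le_of_sq_le_sq h4 (Real.exp_pos _).le
    have h7 : 0 ≤ (G z).re := Real.one_le_exp_iff.1 h5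
    refine max_le h7 ?_
    rcases (norm_nonneg (f z)).eq_or_lt with h8 | h8
    · rw [← h8, Real.log_zero]; exact h7
    · exact (Real.log_le_iff_le_exp h8).2 h6
  have hT : Real.circleAverage (fun z => Real.posLog ‖f z‖) 0 ρ ≤ (G 0).re := by
    rw [← avg_re hρp (hG.mono hsub)]
    refine Real.circleAverage_mono ((contPL hf hρ1).circleIntegrable hρp.le)
      ((Complex.continuous_re.comp_continuousOn
        (hG.continuousOn.mono (sphere_subset_closedBall.trans hsub))).circleIntegrable hρp.le)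
      (fun z hz => hin z (sphere_subset_closedBall (by rwa [abs_of_pos hρp] at hz)))
  have hT0 : 0 ≤ Real.circleAverage (fun z => Real.posLog ‖f z‖) 0 ρ :=
    Real.circleAverage_nonneg_of_nonneg (fun _ _ => Real.posLog_nonneg)
  have hqρ : q ∈ ball (0:ℂ) ρ := by rw [mem_ball, dist_zero_right]; linarith
  have hH := harnack (hG.mono (ball_subset_closedBall.trans hsub))
    (fun z hz => Real.posLog_nonneg.trans (hin z (ball_subset_closedBall hz))) hqρ
  have hGq : 0 ≤ (G q).re := Real.posLog_nonneg.trans (hin q (ball_subset_closedBall hqρ))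
  have hG0 : 0 ≤ (G 0).re := hT0.trans hT
  have hl := log_two_le hρb.le hρ1
  have hk : 2 * (G q).re ≤ k * (-Real.log c + Real.log (1 - ρ)⁻¹) := by
    have h5 : 1 - (1 - c * (1 - ρ)) = Real.exp (Real.log c - Real.log (1 - ρ)⁻¹) := by
      rw [Real.log_inv, sub_neg_eq_add, Real.exp_add, Real.exp_log hcp, Real.exp_log (by linarith)]
      ring
    rw [← hGE q hq, Complex.norm_exp, h5, ← Real.exp_nat_mul, ← Real.exp_nat_mul, ← Real.exp_add,
      Real.exp_le_one_iff] at hEq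
    push_cast at hEq
    linarith
  have h9 : δ * (G 0).re ≤ k * ((1 + -Real.log c / Real.log 2) * Real.log (1 - ρ)⁻¹) := by
    have h10 : -Real.log c ≤ -Real.log c / Real.log 2 * Real.log (1 - ρ)⁻¹ := by
      rw [div_mul_eq_mul_div, le_div_iff₀ hl2]
      exact mul_le_mul_of_nonneg_left hl hlc
    have h11 : (k : ℝ) * (-Real.log c + Real.log (1 - ρ)⁻¹) ≤
        k * ((1 + -Real.log c / Real.log 2) * Real.log (1 - ρ)⁻¹) :=
      mul_le_mul_of_nonneg_left (by linarith) (Nat.cast_nonneg k)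
    have h12 : δ * (G 0).re ≤ (ρ - ‖q‖) * (G 0).re :=
      mul_le_mul_of_nonneg_right (by rw [hδ]; linarith) hG0
    have h13 : (ρ + ‖q‖) * (G q).re ≤ 2 * (G q).re :=
      mul_le_mul_of_nonneg_right (by linarith) hGq
    linarith
  rw [Real.norm_eq_abs, Real.norm_eq_abs, abs_of_nonneg hT0, abs_of_pos (by linarith)]
  refine hT.trans ?_
  rw [mul_assoc, div_mul_eq_mul_div, le_div_iff₀ hδp]
  linarith

end Pool.Agent.H.MP_5f3cbe_lc
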