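import Mathlib

set_option autoImplicit false

namespace Pool.Agent.H.MP_5f3cbe_lc

open FirstOrder FirstOrder.Language

section preds
variable {R : Type} [CommRing R]

def U (a : R) : Prop := ∃ b, a * b = 1
def Dv (a b : R) : Prop := ∃ c, b = a * c
def Ir (a : R) : Prop := ¬ U a ∧ ∀ b c, a = b * c → U b ∨ U c
def Om (g : R) : Prop := U g ∧ U (g - 1)
def Co (f : R) : Prop := f = 0 ∨ f = 1 ∨
  (Om f ∧ ∀ π, Ir π → ∀ g, Om g → Dv π (g - f) → ∃ g', Om g' ∧ Dv (π * π) (g + g' - (f + f)))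
def In2 (g1 g2 H a b : R) : Prop := ∃ π, Ir π ∧ Dv π H ∧ Dv π (g1 - a) ∧ Dv π (g2 - b)
def Pw (x n y : R) : Prop := Co n ∧ Co y ∧ ∀ g1 g2 H, In2 g1 g2 H 1 x →
  (∀ a b, Co a → Co b → In2 g1 g2 H a b → In2 g1 g2 H (a + 1) (b * x)) → In2 g1 g2 H n y
def Qa (q : R) : Prop := Co q ∧ ∃ a b c, Pw 1 a 1 ∧ Pw 1 b 1 ∧ Pw 1 c 1 ∧ q * c = a - b
def Rl (x : R) : Prop := Co x ∧ ∀ g, ¬ Co g → ¬ U (g - x) → ∃ q, Qa q ∧ ¬ U (g - q)
def Le (x y : R) : Prop := ∃ t, Rl t ∧ y = x + t * t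
def Ns (c s : R) : Prop := ∃ a b i, Rl a ∧ Rl b ∧ Co i ∧ i * i = -1 ∧ c = a + i * b ∧
  s = a * a + b * b
def V (π f s : R) : Prop := ∃ c, Co c ∧ Dv π (f - c) ∧ Ns c s
def NF (f : R) : Prop := ∃ φ q n r0 : R, Ir q ∧ Pw 1 n 1 ∧ Rl r0 ∧ ¬ Le 1 r0 ∧
  (∀ π, Ir π → ∀ s, V π φ s → ¬ Le 1 s) ∧
  ∀ r, Rl r → ¬ Le r r0 → ¬ Le 1 r → ∃ E, U E ∧
    (∀ π, Ir π → ∀ s1 s2 s3, V π φ s1 → V π E s2 → V π f s3 → Le s1 (r * r) →
      Le 1 s2 ∧ Le s3 s2) ∧
    ∀ y s, Pw (1 - r) n y → V q E s → Le (s * y) 1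

end preds

section defn
variable {R : Type} [CommRing R] [FirstOrder.Ring.CompatibleRing R]

def D (α : Type) (P : (α → R) → Prop) : Prop :=
  ∃ φ : Language.ring.Formula α, ∀ v : α → R, φ.Realize v ↔ P v
def T (α : Type) (t : (α → R) → R) : Prop :=
  ∃ τ : Language.ring.Term α, ∀ v : α → R, τ.realize v = t v

variable {α β : Type}

lemma T.var (a : α) : T (R := R) α (fun v => v a) := ⟨Term.var a, fun _ => rfl⟩
lemma T.zero : T (R := R) α (fun _ => 0) := ⟨0, fun _ => by simp⟩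
lemma T.one : T (R := R) α (fun _ => 1) := ⟨1, fun _ => by simp⟩
lemma T.add {s t : (α → R) → R} (hs : T α s) (ht : T α t) : T α (fun v => s v + t v) := by
  obtain ⟨σ, hσ⟩ := hs
  obtain ⟨τ, hτ⟩ := ht
  exact ⟨σ + τ, fun v => by simp [hσ, hτ]⟩
lemma T.mul {s t : (α → R) → R} (hs : T α s) (ht : T α t) : T α (fun v => s v * t v) := by
  obtain ⟨σ, hσ⟩ := hs
  obtain ⟨τ, hτ⟩ := ht
  exact ⟨σ * τ, fun v => by simp [hσ, hτ]⟩
lemma T.neg {t : (α → R) → R} (ht : T α t) : T α (fun v => -t v) := by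
  obtain ⟨τ, hτ⟩ := ht
  exact ⟨-τ, fun v => by simp [hτ]⟩
lemma T.sub {s t : (α → R) → R} (hs : T α s) (ht : T α t) : T α (fun v => s v - t v) := by
  simpa only [sub_eq_add_neg] using hs.add ht.neg
lemma T.rel {t : (α → R) → R} (ht : T α t) (g : α → β) :
    T β (fun w => t (fun a => w (g a))) := by
  obtain ⟨τ, hτ⟩ := ht
  exact ⟨τ.subst (fun a => Term.var (g a)), fun v => by rw [Term.realize_subst, hτ]; rfl⟩

lemma D.eq {s t : (α → R) → R} (hs : T α s) (ht : T α t) : D α (fun v => s v = t v) := by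
  obtain ⟨σ, hσ⟩ := hs
  obtain ⟨τ, hτ⟩ := ht
  exact ⟨σ.equal τ, fun v => by simp [hσ, hτ]⟩
lemma D.not {P : (α → R) → Prop} (h : D α P) : D α (fun v => ¬ P v) := by
  obtain ⟨φ, hφ⟩ := h
  exact ⟨φ.not, fun v => by simp [hφ]⟩
lemma D.and {P Q : (α → R) → Prop} (h : D α P) (h' : D α Q) : D α (fun v => P v ∧ Q v) := by
  obtain ⟨φ, hφ⟩ := h
  obtain ⟨ψ, hψ⟩ := h'
  exact ⟨φ ⊓ ψ, fun v => by simp [hφ, hψ]⟩
lemma D.or {P Q : (α → R) → Prop} (h : D α P) (h' : D α Q) : D α (fun v => P v ∨ Q v) := by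
  obtain ⟨φ, hφ⟩ := h
  obtain ⟨ψ, hψ⟩ := h'
  exact ⟨φ ⊔ ψ, fun v => by simp [hφ, hψ]⟩
lemma D.imp {P Q : (α → R) → Prop} (h : D α P) (h' : D α Q) : D α (fun v => P v → Q v) := by
  obtain ⟨φ, hφ⟩ := h
  obtain ⟨ψ, hψ⟩ := h'
  exact ⟨φ.imp ψ, fun v => by simp [hφ, hψ]⟩
lemma D.ex {P : R → (α → R) → Prop}
    (h : D (α ⊕ Unit) (fun w => P (w (Sum.inr ())) (fun a => w (Sum.inl a)))) :
    D α (fun v => ∃ x, P x v) := by
  obtain ⟨φ, hφ⟩ := h
  refine ⟨φ.iExs Unit, fun v => ?_⟩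
  rw [Formula.realize_iExs]
  simp only [hφ]
  exact ⟨fun ⟨i, hi⟩ => ⟨i (), hi⟩, fun ⟨x, hx⟩ => ⟨fun _ => x, hx⟩⟩
lemma D.all {P : R → (α → R) → Prop}
    (h : D (α ⊕ Unit) (fun w => P (w (Sum.inr ())) (fun a => w (Sum.inl a)))) :
    D α (fun v => ∀ x, P x v) := by
  obtain ⟨φ, hφ⟩ := h
  refine ⟨φ.iAlls Unit, fun v => ?_⟩
  rw [Formula.realize_iAlls]
  simp only [hφ]
  exact ⟨fun hi x => hi (fun _ => x), fun hx i => hx (i ())⟩

lemma D_U {a : (α → R) → R} (ha : T α a) : D α (fun v => U (a v)) :=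
  D.ex (D.eq ((ha.rel _).mul (T.var _)) T.one)
lemma D_Dv {a b : (α → R) → R} (ha : T α a) (hb : T α b) : D α (fun v => Dv (a v) (b v)) :=
  D.ex (D.eq (hb.rel _) ((ha.rel _).mul (T.var _)))
lemma D_Ir {a : (α → R) → R} (ha : T α a) : D α (fun v => Ir (a v)) :=
  (D_U ha).not.and (D.all (D.all ((D.eq (ha.rel _) ((T.var _).mul (T.var _))).imp
    ((D_U (T.var _)).or (D_U (T.var _))))))
lemma D_Om {a : (α → R) → R} (ha : T α a) : D α (fun v => Om (a v)) :=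
  (D_U ha).and (D_U (ha.sub T.one))
lemma D_Co {a : (α → R) → R} (ha : T α a) : D α (fun v => Co (a v)) :=
  (D.eq ha T.zero).or ((D.eq ha T.one).or ((D_Om ha).and (D.all ((D_Ir (T.var _)).imp
    (D.all ((D_Om (T.var _)).imp ((D_Dv (T.var _) ((T.var _).sub (ha.rel _))).imp
      (D.ex ((D_Om (T.var _)).and (D_Dv ((T.var _).mul (T.var _))
        (((T.var _).add (T.var _)).sub ((ha.rel _).add (ha.rel _)))))))))))))
lemma D_In2 {g1 g2 H a b : (α → R) → R} (h1 : T α g1) (h2 : T α g2) (h3 : T α H) (h4 : T α a)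
    (h5 : T α b) : D α (fun v => In2 (g1 v) (g2 v) (H v) (a v) (b v)) :=
  D.ex ((D_Ir (T.var _)).and ((D_Dv (T.var _) (h3.rel _)).and
    ((D_Dv (T.var _) ((h1.rel _).sub (h4.rel _))).and
      (D_Dv (T.var _) ((h2.rel _).sub (h5.rel _))))))
lemma D_Pw {x n y : (α → R) → R} (h1 : T α x) (h2 : T α n) (h3 : T α y) :
    D α (fun v => Pw (x v) (n v) (y v)) :=
  (D_Co h2).and ((D_Co h3).and (D.all (D.all (D.all
    ((D_In2 (T.var _) (T.var _) (T.var _) T.one (h1.rel _)).imp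
      ((D.all (D.all ((D_Co (T.var _)).imp ((D_Co (T.var _)).imp
        ((D_In2 (T.var _) (T.var _) (T.var _) (T.var _) (T.var _)).imp
          (D_In2 (T.var _) (T.var _) (T.var _) ((T.var _).add T.one)
            ((T.var _).mul (h1.rel _)))))))).imp
        (D_In2 (T.var _) (T.var _) (T.var _) (h2.rel _) (h3.rel _))))))))
lemma D_Qa {q : (α → R) → R} (h : T α q) : D α (fun v => Qa (q v)) :=
  (D_Co h).and (D.ex (D.ex (D.ex ((D_Pw T.one (T.var _) T.one).and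
    ((D_Pw T.one (T.var _) T.one).and ((D_Pw T.one (T.var _) T.one).and
      (D.eq ((h.rel _).mul (T.var _)) ((T.var _).sub (T.var _)))))))))
lemma D_Rl {x : (α → R) → R} (h : T α x) : D α (fun v => Rl (x v)) :=
  (D_Co h).and (D.all ((D_Co (T.var _)).not.imp ((D_U ((T.var _).sub (h.rel _))).not.imp
    (D.ex ((D_Qa (T.var _)).and (D_U ((T.var _).sub (T.var _))).not)))))
lemma D_Le {x y : (α → R) → R} (h1 : T α x) (h2 : T α y) : D α (fun v => Le (x v) (y v)) :=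
  D.ex ((D_Rl (T.var _)).and (D.eq (h2.rel _) ((h1.rel _).add ((T.var _).mul (T.var _)))))
lemma D_Ns {c s : (α → R) → R} (h1 : T α c) (h2 : T α s) : D α (fun v => Ns (c v) (s v)) :=
  D.ex (D.ex (D.ex ((D_Rl (T.var _)).and ((D_Rl (T.var _)).and ((D_Co (T.var _)).and
    ((D.eq ((T.var _).mul (T.var _)) T.one.neg).and
      ((D.eq (h1.rel _) ((T.var _).add ((T.var _).mul (T.var _)))).and
        (D.eq (h2.rel _) (((T.var _).mul (T.var _)).add ((T.var _).mul (T.var _)))))))))))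
lemma D_V {π f s : (α → R) → R} (h1 : T α π) (h2 : T α f) (h3 : T α s) :
    D α (fun v => V (π v) (f v) (s v)) :=
  D.ex ((D_Co (T.var _)).and ((D_Dv (h1.rel _) ((h2.rel _).sub (T.var _))).and
    (D_Ns (T.var _) (h3.rel _))))
lemma D_NF {f : (α → R) → R} (h : T α f) : D α (fun v => NF (f v)) := by
  unfold NF
  refine D.ex (D.ex (D.ex (D.ex ((D_Ir (T.var _)).and ((D_Pw T.one (T.var _) T.one).and
    ((D_Rl (T.var _)).and ((D_Le T.one (T.var _)).not.and (D.and ?_ ?_))))))))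
  · exact D.all ((D_Ir (T.var _)).imp (D.all ((D_V (T.var _) (T.var _) (T.var _)).imp
      (D_Le T.one (T.var _)).not)))
  · refine D.all ((D_Rl (T.var _)).imp ((D_Le (T.var _) (T.var _)).not.imp
      ((D_Le T.one (T.var _)).not.imp (D.ex ((D_U (T.var _)).and (D.and ?_ ?_))))))
    · exact D.all ((D_Ir (T.var _)).imp (D.all (D.all (D.all
        ((D_V (T.var _) (T.var _) (T.var _)).imp ((D_V (T.var _) (T.var _) (T.var _)).imp
          ((D_V (T.var _) (h.rel _) (T.var _)).imp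
            ((D_Le (T.var _) ((T.var _).mul (T.var _))).imp
              ((D_Le T.one (T.var _)).and (D_Le (T.var _) (T.var _)))))))))))
    · exact D.all (D.all ((D_Pw (T.one.sub (T.var _)) (T.var _) (T.var _)).imp
        ((D_V (T.var _) (T.var _) (T.var _)).imp (D_Le ((T.var _).mul (T.var _)) T.one))))

end defn

end Pool.Agent.H.MP_5f3cbe_lc
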