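import Pool.Agent.H.MP_5f3cbe_lc.B
import Pool.Agent.H.MP_5f3cbe_lc.D

set_option autoImplicit false

namespace Pool.Agent.H.MP_5f3cbe_lc

open Metric Complex Set Filter Topology

abbrev HS : Subring (ℂ → ℂ) :=
  Subring.closure {g : ℂ → ℂ | DifferentiableOn ℂ g (Metric.ball (0:ℂ) 1) ∧
    ∀ z ∉ Metric.ball (0:ℂ) 1, g z = g 0}

def HS' : Subring (ℂ → ℂ) where
  carrier := {g : ℂ → ℂ | DifferentiableOn ℂ g (Metric.ball (0:ℂ) 1) ∧
    ∀ z ∉ Metric.ball (0:ℂ) 1, g z = g 0}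
  mul_mem' := fun {a b} ha hb => ⟨ha.1.mul hb.1, fun z hz => by
    simp only [Pi.mul_apply, ha.2 z hz, hb.2 z hz]⟩
  one_mem' := ⟨differentiableOn_const _, fun _ _ => rfl⟩
  add_mem' := fun {a b} ha hb => ⟨ha.1.add hb.1, fun z hz => by
    simp only [Pi.add_apply, ha.2 z hz, hb.2 z hz]⟩
  zero_mem' := ⟨differentiableOn_const _, fun _ _ => rfl⟩
  neg_mem' := fun {a} ha => ⟨ha.1.neg, fun z hz => by simp only [Pi.neg_apply, ha.2 z hz]⟩

lemma mem_HS {g : ℂ → ℂ} : g ∈ HS ↔ DifferentiableOn ℂ g (Metric.ball (0:ℂ) 1) ∧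
    ∀ z ∉ Metric.ball (0:ℂ) 1, g z = g 0 := by
  have : HS = HS' := Subring.closure_eq HS'
  rw [this]
  rfl

lemma h0 : (0:ℂ) ∈ ball (0:ℂ) 1 := mem_ball_self one_pos

lemma dif (f : HS) : DifferentiableOn ℂ (f : ℂ → ℂ) (ball 0 1) := (mem_HS.1 f.2).1

lemma exists_mk {F : ℂ → ℂ} (hF : DifferentiableOn ℂ F (ball 0 1)) :
    ∃ f : HS, ∀ z ∈ ball (0:ℂ) 1, (f : ℂ → ℂ) z = F z := by
  classical
  refine ⟨⟨fun z => if z ∈ ball (0:ℂ) 1 then F z else F 0, mem_HS.2 ⟨hF.congr ?_, ?_⟩⟩, ?_⟩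
  · intro z hz; simp only [if_pos hz]
  · intro z hz; simp only [if_neg hz, if_pos h0]
  · intro z hz; simp only [if_pos hz]

lemma ext' {f g : HS} (h : ∀ z ∈ ball (0:ℂ) 1, (f : ℂ → ℂ) z = (g : ℂ → ℂ) z) : f = g := by
  apply Subtype.ext
  funext z
  by_cases hz : z ∈ ball (0:ℂ) 1
  · exact h z hz
  · rw [(mem_HS.1 f.2).2 z hz, (mem_HS.1 g.2).2 z hz, h 0 h0]

def C : ℂ →+* HS where
  toFun c := ⟨fun _ => c, mem_HS.2 ⟨differentiableOn_const _, fun _ _ => rfl⟩⟩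
  map_one' := rfl
  map_mul' _ _ := rfl
  map_zero' := rfl
  map_add' _ _ := rfl

@[simp] lemma C_apply (c z : ℂ) : ((C c : HS) : ℂ → ℂ) z = c := rfl
@[simp] lemma add_ap (f g : HS) (z : ℂ) : ((f + g : HS) : ℂ → ℂ) z = (f : ℂ → ℂ) z + (g : ℂ → ℂ) z := rfl
@[simp] lemma sub_ap (f g : HS) (z : ℂ) : ((f - g : HS) : ℂ → ℂ) z = (f : ℂ → ℂ) z - (g : ℂ → ℂ) z := rfl
@[simp] lemma mul_ap (f g : HS) (z : ℂ) : ((f * g : HS) : ℂ → ℂ) z = (f : ℂ → ℂ) z * (g : ℂ → ℂ) z := rfl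
@[simp] lemma one_ap (z : ℂ) : ((1 : HS) : ℂ → ℂ) z = 1 := rfl
@[simp] lemma zero_ap (z : ℂ) : ((0 : HS) : ℂ → ℂ) z = 0 := rfl

lemma C_inj {a b : ℂ} : C a = C b ↔ a = b := C.injective.eq_iff

lemma U_iff {f : HS} : U f ↔ ∀ z ∈ ball (0:ℂ) 1, (f : ℂ → ℂ) z ≠ 0 := by
  constructor
  · rintro ⟨b, hb⟩ z _ h
    have := congrArg (fun g : HS => (g : ℂ → ℂ) z) hb
    simp only [mul_ap, one_ap, h, zero_mul] at this
    exact zero_ne_one this
  · intro h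
    obtain ⟨g, hg⟩ := exists_mk ((dif f).inv h)
    exact ⟨g, ext' fun z hz => by rw [mul_ap, hg z hz, one_ap]; exact mul_inv_cancel₀ (h z hz)⟩

lemma notU_iff {f : HS} : ¬ U f ↔ ∃ z ∈ ball (0:ℂ) 1, (f : ℂ → ℂ) z = 0 := by
  rw [U_iff]; push Not; rfl

/-- `π` vanishes exactly at `p`, simply. -/
def Pt (π : HS) (p : ℂ) : Prop := p ∈ ball (0:ℂ) 1 ∧ ∃ u : HS, U u ∧
  ∀ z ∈ ball (0:ℂ) 1, (π : ℂ → ℂ) z = (z - p) * (u : ℂ → ℂ) z

lemma fac (f : HS) {p : ℂ} (hp : p ∈ ball (0:ℂ) 1) (h : (f : ℂ → ℂ) p = 0) :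
    ∃ g : HS, (g : ℂ → ℂ) p = deriv (f : ℂ → ℂ) p ∧
      ∀ z ∈ ball (0:ℂ) 1, (f : ℂ → ℂ) z = (z - p) * (g : ℂ → ℂ) z := by
  obtain ⟨g, hg⟩ := exists_mk ((Complex.differentiableOn_dslope (isOpen_ball.mem_nhds hp)).2 (dif f))
  refine ⟨g, by rw [hg p hp, dslope_same], fun z hz => ?_⟩
  rw [hg z hz, ← smul_eq_mul, sub_smul_dslope, h, sub_zero]

lemma cancel {f g : HS} {p : ℂ} (hp : p ∈ ball (0:ℂ) 1)
    (h : ∀ z ∈ ball (0:ℂ) 1, (z - p) * (f : ℂ → ℂ) z = (z - p) * (g : ℂ → ℂ) z) : f = g := by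
  have h1 : ∀ z ∈ ball (0:ℂ) 1, z ≠ p → (f : ℂ → ℂ) z = (g : ℂ → ℂ) z := fun z hz hne =>
    mul_left_cancel₀ (sub_ne_zero.2 hne) (h z hz)
  refine ext' fun z hz => ?_
  by_cases hne : z = p
  · subst hne
    have hf := ((dif f).continuousOn.continuousAt (isOpen_ball.mem_nhds hp)).tendsto
    have hg := ((dif g).continuousOn.continuousAt (isOpen_ball.mem_nhds hp)).tendsto
    refine tendsto_nhds_unique_of_eventuallyEq (l := 𝓝[≠] z) (hf.mono_left nhdsWithin_le_nhds)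
      (hg.mono_left nhdsWithin_le_nhds) ?_
    filter_upwards [mem_nhdsWithin_of_mem_nhds (isOpen_ball.mem_nhds hp), self_mem_nhdsWithin]
      with w hw hw'
    exact h1 w hw hw'
  · exact h1 z hz hne

lemma exists_Pt {p : ℂ} (hp : p ∈ ball (0:ℂ) 1) : ∃ π, Pt π p := by
  obtain ⟨π, hπ⟩ := exists_mk (F := fun z => z - p) (by fun_prop)
  exact ⟨π, hp, 1, ⟨1, mul_one _⟩, fun z hz => by rw [hπ z hz, one_ap, mul_one]⟩

lemma Pt.dv {π f : HS} {p : ℂ} (h : Pt π p) : Dv π f ↔ (f : ℂ → ℂ) p = 0 := by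
  obtain ⟨hp, u, ⟨u', hu⟩, hπ⟩ := h
  constructor
  · rintro ⟨c, rfl⟩
    rw [mul_ap, hπ p hp, sub_self, zero_mul, zero_mul]
  · intro hf
    obtain ⟨g, -, hg⟩ := fac f hp hf
    refine ⟨u' * g, ext' fun z hz => ?_⟩
    have := congrArg (fun g : HS => (g : ℂ → ℂ) z) hu
    simp only [mul_ap, one_ap] at this
    rw [hg z hz, mul_ap, mul_ap, hπ z hz]
    linear_combination (-(z - p) * (g : ℂ → ℂ) z) * this

lemma Pt.dv2 {π f : HS} {p : ℂ} (h : Pt π p) :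
    Dv (π * π) f ↔ (f : ℂ → ℂ) p = 0 ∧ deriv (f : ℂ → ℂ) p = 0 := by
  have h' := h
  obtain ⟨hp, u, ⟨u', hu⟩, hπ⟩ := h
  have hπ0 : (π : ℂ → ℂ) p = 0 := by rw [hπ p hp, sub_self, zero_mul]
  constructor
  · rintro ⟨c, rfl⟩
    refine ⟨by rw [mul_ap, mul_ap, hπ0, zero_mul, zero_mul], ?_⟩
    have h1 := ((dif π).differentiableAt (isOpen_ball.mem_nhds hp)).hasDerivAt
    have h2 := ((dif c).differentiableAt (isOpen_ball.mem_nhds hp)).hasDerivAt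
    have h3 := ((h1.mul h1).mul h2).deriv
    simp only [Pi.mul_apply, hπ0, mul_zero, zero_mul, add_zero] at h3
    exact h3
  · rintro ⟨hf, hf'⟩
    obtain ⟨g, hg0, hg⟩ := fac f hp hf
    obtain ⟨c, hc⟩ := h'.dv.2 (hg0.trans hf')
    refine ⟨u' * c, ext' fun z hz => ?_⟩
    have := congrArg (fun g : HS => (g : ℂ → ℂ) z) hu
    simp only [mul_ap, one_ap] at this
    rw [hg z hz, hc]
    simp only [mul_ap]
    rw [hπ z hz]
    linear_combination (-(z - p) ^ 2 * (u : ℂ → ℂ) z * (c : ℂ → ℂ) z) * this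

lemma Ir_iff {π : HS} : Ir π ↔ ∃ p, Pt π p := by
  constructor
  · rintro ⟨h1, h2⟩
    obtain ⟨p, hp, hπ⟩ := notU_iff.1 h1
    obtain ⟨g, -, hg⟩ := fac π hp hπ
    obtain ⟨Z, hZ⟩ := exists_mk (F := fun z => z - p) (by fun_prop)
    rcases h2 Z g (ext' fun z hz => by rw [mul_ap, hZ z hz, hg z hz]) with h | h
    · exact absurd (by rw [hZ p hp, sub_self]) (U_iff.1 h p hp)
    · exact ⟨p, hp, g, h, hg⟩
  · rintro ⟨p, hp, u, hu, hπ⟩
    have hπ0 : (π : ℂ → ℂ) p = 0 := by rw [hπ p hp, sub_self, zero_mul]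
    have key : ∀ b c : HS, π = b * c → (b : ℂ → ℂ) p = 0 → U c := by
      intro b c hbc hb
      obtain ⟨g, -, hg⟩ := fac b hp hb
      have h1 : u = g * c := cancel hp fun z hz => by
        rw [← hπ z hz, hbc, mul_ap, mul_ap, hg z hz, mul_assoc]
      obtain ⟨u', hu'⟩ := hu
      exact ⟨g * u', by rw [← hu', h1]; ring⟩
    refine ⟨notU_iff.2 ⟨p, hp, hπ0⟩, fun b c hbc => ?_⟩
    have h1 : (b : ℂ → ℂ) p * (c : ℂ → ℂ) p = 0 := by rw [← mul_ap, ← hbc, hπ0]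
    rcases mul_eq_zero.1 h1 with h | h
    · exact Or.inr (key b c hbc h)
    · exact Or.inl (key c b (by rw [hbc, mul_comm]) h)

lemma Om_iff {g : HS} : Om g ↔ (∀ z ∈ ball (0:ℂ) 1, (g : ℂ → ℂ) z ≠ 0) ∧
    ∀ z ∈ ball (0:ℂ) 1, (g : ℂ → ℂ) z ≠ 1 := by
  simp only [Om, U_iff, sub_ap, one_ap, sub_ne_zero]

lemma flip {g : HS} (hg : Om g) {p : ℂ} (hp : p ∈ ball (0:ℂ) 1) :
    ∃ g' : HS, Om g' ∧ (g' : ℂ → ℂ) p = (g : ℂ → ℂ) p ∧
      deriv (g' : ℂ → ℂ) p = -deriv (g : ℂ → ℂ) p := by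
  have hp1 : ‖p‖ < 1 := by simpa using hp
  obtain ⟨s, hs⟩ : ∃ s : ℝ, s = normSq p := ⟨_, rfl⟩
  have hs0 : 0 ≤ s := hs ▸ normSq_nonneg p
  have hs1 : s < 1 := by rw [hs, Complex.normSq_eq_norm_sq]; nlinarith [norm_nonneg p]
  have hsp : (starRingEnd ℂ) p * p = s := by rw [hs, mul_comm, Complex.mul_conj]
  have hlt : ∀ z ∈ ball (0:ℂ) 1,
      normSq (2 * p - (1 + s) * z) < normSq ((1 + s) - 2 * (starRingEnd ℂ) p * z) := by
    intro z hz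
    have hz1 : normSq z < 1 := by
      have : ‖z‖ < 1 := by simpa using hz
      rw [Complex.normSq_eq_norm_sq]; nlinarith [norm_nonneg z]
    have h1 : normSq ((1 + s) - 2 * (starRingEnd ℂ) p * z) - normSq (2 * p - (1 + s) * z) =
        (1 - s) ^ 2 * (1 - normSq z) := by
      rw [normSq_apply p] at hs
      simp [normSq_apply]
      rw [hs]; ring
    have : 0 < (1 - s) ^ 2 * (1 - normSq z) := mul_pos (pow_pos (by linarith) 2) (by linarith)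
    linarith
  have hden : ∀ z ∈ ball (0:ℂ) 1, ((1 + s) - 2 * (starRingEnd ℂ) p * z : ℂ) ≠ 0 := by
    intro z hz h
    have := hlt z hz
    rw [h, map_zero] at this
    exact absurd this (not_lt.2 (normSq_nonneg _))
  obtain ⟨ρ, hρ⟩ : ∃ ρ : ℂ → ℂ, ρ = fun z =>
    (2 * p - (1 + s) * z) / ((1 + s) - 2 * (starRingEnd ℂ) p * z) := ⟨_, rfl⟩
  have hmaps : MapsTo ρ (ball 0 1) (ball 0 1) := by
    intro z hz
    rw [mem_ball, dist_zero_right, hρ]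
    simp only [norm_div]
    rw [div_lt_one (norm_pos_iff.2 (hden z hz))]
    apply lt_of_pow_lt_pow_left₀ 2 (norm_nonneg _)
    rw [Complex.sq_norm, Complex.sq_norm]
    exact hlt z hz
  have hρd : DifferentiableOn ℂ ρ (ball 0 1) := by
    rw [hρ]; exact DifferentiableOn.div (by fun_prop) (by fun_prop) hden
  have h1s : (1 - s : ℂ) ≠ 0 := by
    exact_mod_cast (by linarith : (1 - s : ℝ) ≠ 0)
  have hd : ((1 + s) - 2 * (starRingEnd ℂ) p * p : ℂ) = 1 - s := by linear_combination -2 * hsp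
  have hρp : ρ p = p := by
    rw [hρ]
    simp only [hd]
    field_simp
    ring
  have hρ' : HasDerivAt ρ (-1) p := by
    have h1 : HasDerivAt (fun z : ℂ => 2 * p - (1 + s) * z) (-(1 + s)) p := by
      simpa using ((hasDerivAt_id p).const_mul (1 + s : ℂ)).const_sub (2 * p)
    have h2 : HasDerivAt (fun z : ℂ => (1 + s) - 2 * (starRingEnd ℂ) p * z)
        (-(2 * (starRingEnd ℂ) p)) p := by
      simpa using ((hasDerivAt_id p).const_mul (2 * (starRingEnd ℂ) p)).const_sub (1 + s : ℂ)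
    have h3 := h1.fun_div h2 (hden p hp)
    have h5 : (-(1 + s) * (1 + s - 2 * (starRingEnd ℂ) p * p) -
        (2 * p - (1 + s) * p) * -(2 * (starRingEnd ℂ) p)) /
          (1 + s - 2 * (starRingEnd ℂ) p * p : ℂ) ^ 2 = -1 := by
      rw [hd, div_eq_iff (pow_ne_zero 2 h1s)]
      linear_combination (2 * (1 - s : ℂ)) * hsp
    rw [h5] at h3
    rw [hρ]
    exact h3
  obtain ⟨g', hg'⟩ := exists_mk ((dif g).comp hρd hmaps)
  obtain ⟨h0', h1'⟩ := Om_iff.1 hg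
  refine ⟨g', Om_iff.2 ⟨fun z hz => ?_, fun z hz => ?_⟩, ?_, ?_⟩
  · rw [hg' z hz]; exact h0' _ (hmaps hz)
  · rw [hg' z hz]; exact h1' _ (hmaps hz)
  · rw [hg' p hp, Function.comp_apply, hρp]
  · have hev : (g' : ℂ → ℂ) =ᶠ[𝓝 p] (g : ℂ → ℂ) ∘ ρ := by
      filter_upwards [isOpen_ball.mem_nhds hp] with z hz using hg' z hz
    have h4 : HasDerivAt (g : ℂ → ℂ) (deriv (g : ℂ → ℂ) p) (ρ p) := by
      rw [hρp]; exact ((dif g).differentiableAt (isOpen_ball.mem_nhds hp)).hasDerivAt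
    rw [hev.deriv_eq, (h4.comp p hρ').deriv]
    ring

lemma deriv_comb (g g' f : HS) {p : ℂ} (hp : p ∈ ball (0:ℂ) 1) :
    deriv ((g + g' - (f + f) : HS) : ℂ → ℂ) p =
      deriv (g : ℂ → ℂ) p + deriv (g' : ℂ → ℂ) p - 2 * deriv (f : ℂ → ℂ) p := by
  have h := fun k : HS => ((dif k).differentiableAt (isOpen_ball.mem_nhds hp)).hasDerivAt
  have := (((h g).add (h g')).sub ((h f).add (h f))).deriv
  rw [two_mul]
  exact this

lemma Co_iff {f : HS} : Co f ↔ ∃ c, f = C c := by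
  constructor
  · rintro (rfl | rfl | ⟨hf, h⟩)
    · exact ⟨0, rfl⟩
    · exact ⟨1, rfl⟩
    have hd : ∀ p ∈ ball (0:ℂ) 1, deriv (f : ℂ → ℂ) p = 0 := by
      intro p hp
      obtain ⟨π, hπ⟩ := exists_Pt hp
      have hp1 : ‖p‖ < 1 := by simpa using hp
      have hsub : ball p (1 - ‖p‖) ⊆ ball 0 1 :=
        ball_subset_ball' (by rw [dist_zero_right]; linarith)
      obtain ⟨M, hM⟩ := landau (p := p) (R := 1 - ‖p‖) (by linarith) ((Om_iff.1 hf).1 p hp)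
      have hn : ∀ n : ℕ, ∃ g : HS, Om g ∧ (g : ℂ → ℂ) p = (f : ℂ → ℂ) p ∧
          deriv (g : ℂ → ℂ) p = (2 * n + 1) * deriv (f : ℂ → ℂ) p := by
        intro n
        induction n with
        | zero => exact ⟨f, hf, rfl, by simp⟩
        | succ n ih =>
          obtain ⟨g, hg, hgp, hgd⟩ := ih
          obtain ⟨g1, hg1, hg1p, hg1d⟩ := flip hg hp
          obtain ⟨g2, hg2, hg2d⟩ := h π (Ir_iff.2 ⟨p, hπ⟩) g1 hg1
            (hπ.dv.2 (by rw [sub_ap, hg1p, hgp, sub_self]))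
          obtain ⟨h1, h2⟩ := hπ.dv2.1 hg2d
          rw [deriv_comb _ _ _ hp, hg1d, hgd] at h2
          simp only [sub_ap, add_ap] at h1
          refine ⟨g2, hg2, by linear_combination h1 - hg1p - hgp, ?_⟩
          push_cast
          linear_combination h2
      by_contra hne
      have hpos : 0 < ‖deriv (f : ℂ → ℂ) p‖ := norm_pos_iff.2 hne
      obtain ⟨n, hn'⟩ := exists_nat_gt (M / ‖deriv (f : ℂ → ℂ) p‖)
      obtain ⟨g, hg, hgp, hgd⟩ := hn n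
      have h3 := hM g ((dif g).mono hsub) (fun z hz => (Om_iff.1 hg).1 z (hsub hz))
        (fun z hz => (Om_iff.1 hg).2 z (hsub hz)) hgp
      have h4 : ‖(2 * n + 1 : ℂ)‖ = 2 * n + 1 := by
        have : (2 * n + 1 : ℂ) = ((2 * n + 1 : ℕ) : ℂ) := by push_cast; ring
        rw [this, Complex.norm_natCast]; push_cast; ring
      rw [hgd, norm_mul, h4] at h3
      rw [div_lt_iff₀ hpos] at hn'
      nlinarith [Nat.cast_nonneg (α := ℝ) n]
    refine ⟨(f : ℂ → ℂ) 0, ext' fun z hz => ?_⟩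
    exact isOpen_ball.is_const_of_deriv_eq_zero (𝕜 := ℂ) (convex_ball (0:ℂ) 1).isPreconnected
      (dif f) hd hz h0
  · rintro ⟨c, rfl⟩
    by_cases hc0 : c = 0
    · exact Or.inl (by rw [hc0, map_zero])
    by_cases hc1 : c = 1
    · exact Or.inr (Or.inl (by rw [hc1, map_one]))
    refine Or.inr (Or.inr ⟨Om_iff.2 ⟨fun _ _ => hc0, fun _ _ => hc1⟩, fun π hπ g hg hd => ?_⟩)
    obtain ⟨p, hπ⟩ := Ir_iff.1 hπ
    obtain ⟨g', hg', h1, h2⟩ := flip hg hπ.1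
    have h3 := hπ.dv.1 hd
    simp only [sub_ap, C_apply] at h3
    refine ⟨g', hg', hπ.dv2.2 ⟨?_, ?_⟩⟩
    · simp only [sub_ap, add_ap, C_apply]
      linear_combination h1 + 2 * h3
    · have h4 : deriv ((C c : HS) : ℂ → ℂ) p = 0 := deriv_const p c
      rw [deriv_comb _ _ _ hπ.1, h2, h4]
      ring

end Pool.Agent.H.MP_5f3cbe_lc
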