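import Pool.Agent.H.MP_5f3cbe_lc.C

set_option autoImplicit false

namespace Pool.Agent.H.MP_5f3cbe_lc

open Metric Complex Set Filter Topology

lemma Co_C (c : ℂ) : Co (C c) := Co_iff.2 ⟨c, rfl⟩

lemma In2_iff {g1 g2 H : HS} {a b : ℂ} : In2 g1 g2 H (C a) (C b) ↔
    ∃ p ∈ ball (0:ℂ) 1, (H : ℂ → ℂ) p = 0 ∧ (g1 : ℂ → ℂ) p = a ∧ (g2 : ℂ → ℂ) p = b := by
  constructor
  · rintro ⟨π, hπ, h1, h2, h3⟩
    obtain ⟨p, hπ⟩ := Ir_iff.1 hπ
    rw [hπ.dv] at h1 h2 h3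
    simp only [sub_ap, C_apply, sub_eq_zero] at h2 h3
    exact ⟨p, hπ.1, h1, h2, h3⟩
  · rintro ⟨p, hp, h1, h2, h3⟩
    obtain ⟨π, hπ⟩ := exists_Pt hp
    refine ⟨π, Ir_iff.2 ⟨p, hπ⟩, hπ.dv.2 h1, hπ.dv.2 ?_, hπ.dv.2 ?_⟩
    · rw [sub_ap, C_apply, h2, sub_self]
    · rw [sub_ap, C_apply, h3, sub_self]

lemma Pw_iff {x : ℂ} (hx : x ≠ 0) {n y : HS} :
    Pw (C x) n y ↔ ∃ k : ℕ, 1 ≤ k ∧ n = C k ∧ y = C (x ^ k) := by
  constructor
  · rintro ⟨hn, hy, h⟩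
    obtain ⟨n, rfl⟩ := Co_iff.1 hn
    obtain ⟨y, rfl⟩ := Co_iff.1 hy
    have hne : ∀ z ∈ ball (0:ℂ) 1, (1 - z : ℂ) ≠ 0 := by
      intro z hz h
      have h1 : ‖z‖ < 1 := by simpa using hz
      rw [← sub_eq_zero.1 h, norm_one] at h1
      exact lt_irrefl _ h1
    have hg : DifferentiableOn ℂ (fun z : ℂ => (1 + z) / (1 - z)) (ball 0 1) :=
      DifferentiableOn.div (by fun_prop) (by fun_prop) hne
    obtain ⟨g1, hg1⟩ := exists_mk hg
    obtain ⟨g2, hg2⟩ := exists_mk (hg.mul_const (log x)).cexp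
    obtain ⟨H, hH⟩ := exists_mk ((hg.mul_const (2 * Real.pi * I)).cexp.sub_const 1)
    have key : ∀ a b : ℂ, In2 g1 g2 H (C a) (C b) ↔ ∃ k : ℕ, 1 ≤ k ∧ a = k ∧ b = x ^ k := by
      intro a b
      rw [In2_iff]
      constructor
      · rintro ⟨p, hp, h1, h2, h3⟩
        rw [hH p hp, sub_eq_zero, Complex.exp_eq_one_iff] at h1
        obtain ⟨m, hm⟩ := h1
        have hm' : (1 + p) / (1 - p) = m := mul_right_cancel₀ Complex.two_pi_I_ne_zero hm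
        have hm0 : 0 < m := by
          have h4 : 1 + p = m * (1 - p) := by rw [← hm']; field_simp [hne p hp]
          have h5 : ‖p‖ < 1 := by simpa using hp
          have h6 := abs_lt.1 ((Complex.abs_re_le_norm p).trans_lt h5)
          have h7 := congrArg Complex.re h4
          simp at h7
          by_contra hc
          have h8 : (m : ℝ) ≤ 0 := by exact_mod_cast not_lt.1 hc
          nlinarith [h6.1, h6.2]
        obtain ⟨k, rfl⟩ := Int.eq_ofNat_of_zero_le hm0.le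
        refine ⟨k, by omega, ?_, ?_⟩
        · rw [← h2, hg1 p hp, hm']; simp
        · rw [← h3, hg2 p hp, hm', Int.cast_natCast, Complex.exp_nat_mul, exp_log hx]
      · rintro ⟨k, hk, rfl, rfl⟩
        have hk' : (1 : ℝ) ≤ k := by exact_mod_cast hk
        have hp : ((((k : ℝ) - 1) / (k + 1) : ℝ) : ℂ) ∈ ball (0:ℂ) 1 := by
          rw [mem_ball, dist_zero_right, Complex.norm_real, Real.norm_eq_abs,
            abs_of_nonneg (div_nonneg (by linarith) (by linarith)), div_lt_one (by linarith)]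
          linarith
        have hv : (1 + ((((k : ℝ) - 1) / (k + 1) : ℝ) : ℂ)) /
            (1 - ((((k : ℝ) - 1) / (k + 1) : ℝ) : ℂ)) = k := by
          rw [div_eq_iff (hne _ hp)]
          have : ((k : ℂ) + 1) ≠ 0 := by exact_mod_cast (by linarith : (k : ℝ) + 1 ≠ 0)
          push_cast
          field_simp
          ring
        refine ⟨_, hp, ?_, ?_, ?_⟩
        · rw [hH _ hp, hv, Complex.exp_nat_mul_two_pi_mul_I, sub_self]
        · rw [hg1 _ hp, hv]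
        · rw [hg2 _ hp, hv, Complex.exp_nat_mul, exp_log hx]
    obtain ⟨k, hk, rfl, rfl⟩ := (key n y).1 (h g1 g2 H
      ((key 1 x).2 ⟨1, le_rfl, by simp, by simp⟩) (fun a b ha hb hab => by
        obtain ⟨a, rfl⟩ := Co_iff.1 ha
        obtain ⟨b, rfl⟩ := Co_iff.1 hb
        obtain ⟨k, hk, rfl, rfl⟩ := (key a b).1 hab
        rw [← map_one C, ← map_add, ← map_mul]
        exact (key _ _).2 ⟨k + 1, by omega, by simp, by rw [pow_succ]⟩))
    exact ⟨k, hk, rfl, rfl⟩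
  · rintro ⟨k, hk, rfl, rfl⟩
    refine ⟨Co_C _, Co_C _, fun g1 g2 H h1 h2 => ?_⟩
    induction k, hk using Nat.le_induction with
    | base => simpa using h1
    | succ k _ ih =>
      have := h2 _ _ (Co_C _) (Co_C _) ih
      rwa [← map_one C, ← map_add, ← map_mul, ← pow_succ, ← Nat.cast_succ] at this

lemma Pw_one {n : HS} : Pw 1 n 1 ↔ ∃ k : ℕ, 1 ≤ k ∧ n = C k := by
  have := Pw_iff (x := 1) one_ne_zero (n := n) (y := 1)
  simpa using this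

lemma Qa_iff {q : HS} : Qa q ↔ ∃ r : ℚ, q = C r := by
  constructor
  · rintro ⟨hq, a, b, c, ha, hb, hc, h⟩
    obtain ⟨q, rfl⟩ := Co_iff.1 hq
    obtain ⟨a, -, rfl⟩ := Pw_one.1 ha
    obtain ⟨b, -, rfl⟩ := Pw_one.1 hb
    obtain ⟨c, hc, rfl⟩ := Pw_one.1 hc
    rw [← map_mul, ← map_sub, C_inj] at h
    have hc' : (c : ℂ) ≠ 0 := by exact_mod_cast (by omega : c ≠ 0)
    refine ⟨(a - b) / c, C_inj.2 ?_⟩
    push_cast
    rw [eq_div_iff hc', h]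
  · rintro ⟨r, rfl⟩
    refine ⟨Co_C _, C ((r.num.toNat + 1 : ℕ) : ℂ), C (((-r.num).toNat + 1 : ℕ) : ℂ), C (r.den : ℂ),
      Pw_one.2 ⟨_, by omega, rfl⟩, Pw_one.2 ⟨_, by omega, rfl⟩,
      Pw_one.2 ⟨_, r.den_pos, rfl⟩, ?_⟩
    rw [← map_mul, ← map_sub, C_inj]
    have h1 : (r : ℂ) * r.den = r.num := by exact_mod_cast Rat.mul_den_eq_num r
    have h2 : ((r.num.toNat : ℤ) : ℂ) - (((-r.num).toNat : ℤ) : ℂ) = r.num := by
      exact_mod_cast Int.toNat_sub_toNat_neg r.num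
    push_cast at h2 ⊢
    rw [h1, ← h2]
    ring

lemma Rl_iff {x : HS} : Rl x ↔ ∃ r : ℝ, x = C r := by
  constructor
  · rintro ⟨hx, h⟩
    obtain ⟨x, rfl⟩ := Co_iff.1 hx
    by_contra hc
    have him : x.im ≠ 0 := fun h0 => hc ⟨x.re, by
      congr 1
      apply Complex.ext <;> simp [h0]⟩
    have him' : (x.im : ℂ) ≠ 0 := Complex.ofReal_ne_zero.2 him
    obtain ⟨g, hg⟩ := exists_mk (F := fun z => x + x.im * z) (by fun_prop)
    have hhalf : (1 / 2 : ℂ) ∈ ball (0:ℂ) 1 := by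
      rw [mem_ball, dist_zero_right]; norm_num
    obtain ⟨q, hq, hq'⟩ := h g (fun hco => by
      obtain ⟨c, rfl⟩ := Co_iff.1 hco
      have h1 := hg 0 h0
      have h2 := hg _ hhalf
      simp only [C_apply] at h1 h2
      apply him'
      linear_combination 2 * h1 - 2 * h2)
      (notU_iff.2 ⟨0, h0, by rw [sub_ap, hg 0 h0, C_apply]; ring⟩)
    obtain ⟨r, rfl⟩ := Qa_iff.1 hq
    obtain ⟨z, hz, hz'⟩ := notU_iff.1 hq'
    rw [sub_ap, hg z hz, C_apply] at hz'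
    have h3 := congrArg Complex.im hz'
    simp at h3
    have h5 : ‖z‖ < 1 := by simpa using hz
    have h6 := abs_lt.1 ((Complex.abs_im_le_norm z).trans_lt h5)
    have h7 : x.im * (1 + z.im) = 0 := by linarith
    rcases mul_eq_zero.1 h7 with h8 | h8
    · exact him h8
    · linarith [h6.1]
  · rintro ⟨r, rfl⟩
    refine ⟨Co_C _, fun g hg hgr => ?_⟩
    obtain ⟨z, hz, hz'⟩ := notU_iff.1 hgr
    rw [sub_ap, C_apply, sub_eq_zero] at hz'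
    rcases ((dif g).analyticOnNhd isOpen_ball).is_constant_or_isOpen
      (convex_ball (0:ℂ) 1).isPreconnected with ⟨w, hw⟩ | ho
    · exact absurd (Co_iff.2 ⟨w, ext' hw⟩) hg
    obtain ⟨ε, hε, hb⟩ := Metric.isOpen_iff.1 (ho _ subset_rfl isOpen_ball) r ⟨z, hz, hz'⟩
    obtain ⟨q, hq⟩ := exists_rat_near r hε
    obtain ⟨w, hw, hwq⟩ := hb (a := (q : ℂ)) (by
      rw [mem_ball, dist_eq_norm, ← Complex.ofReal_ratCast, ← Complex.ofReal_sub,
        Complex.norm_real, Real.norm_eq_abs, abs_sub_comm]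
      exact hq)
    exact ⟨C q, Qa_iff.2 ⟨q, rfl⟩, notU_iff.2 ⟨w, hw, by rw [sub_ap, C_apply, hwq, sub_self]⟩⟩

lemma Le_iff {a b : ℝ} : Le (C a) (C b) ↔ a ≤ b := by
  constructor
  · rintro ⟨t, ht, h⟩
    obtain ⟨t, rfl⟩ := Rl_iff.1 ht
    rw [← map_mul, ← map_add, C_inj] at h
    have : b = a + t * t := by exact_mod_cast h
    nlinarith [mul_self_nonneg t]
  · intro h
    refine ⟨C (Real.sqrt (b - a) : ℝ), Rl_iff.2 ⟨_, rfl⟩, ?_⟩
    rw [← map_mul, ← map_add, C_inj]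
    have := Real.mul_self_sqrt (sub_nonneg.2 h)
    exact_mod_cast (by linarith : b = a + Real.sqrt (b - a) * Real.sqrt (b - a))

lemma Ns_iff {c : ℂ} {s : HS} : Ns (C c) s ↔ s = C ((‖c‖ ^ 2 : ℝ) : ℂ) := by
  constructor
  · rintro ⟨a, b, i, ha, hb, hi, h1, h2, h3⟩
    obtain ⟨a, rfl⟩ := Rl_iff.1 ha
    obtain ⟨b, rfl⟩ := Rl_iff.1 hb
    obtain ⟨i, rfl⟩ := Co_iff.1 hi
    rw [← map_mul, ← map_one C, ← map_neg, C_inj] at h1
    rw [← map_mul, ← map_add, C_inj] at h2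
    rw [h3, ← map_mul, ← map_mul, ← map_add, C_inj, h2, Complex.sq_norm]
    have h4 : (i - I) * (i + I) = 0 := by linear_combination h1 - Complex.I_mul_I
    rcases mul_eq_zero.1 h4 with h | h
    · rw [sub_eq_zero.1 h]; simp [normSq_apply]
    · rw [eq_neg_of_add_eq_zero_left h]; simp [normSq_apply]
  · rintro rfl
    refine ⟨C c.re, C c.im, C I, Rl_iff.2 ⟨_, rfl⟩, Rl_iff.2 ⟨_, rfl⟩, Co_C _, ?_, ?_, ?_⟩
    · rw [← map_mul, Complex.I_mul_I, map_neg, map_one]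
    · rw [← map_mul, ← map_add, C_inj, mul_comm, Complex.re_add_im]
    · rw [← map_mul, ← map_mul, ← map_add, C_inj, Complex.sq_norm, normSq_apply]
      push_cast; rfl

lemma Pt.V_iff {π f s : HS} {p : ℂ} (h : Pt π p) :
    V π f s ↔ s = C ((‖(f : ℂ → ℂ) p‖ ^ 2 : ℝ) : ℂ) := by
  constructor
  · rintro ⟨c, hc, h1, h2⟩
    obtain ⟨c, rfl⟩ := Co_iff.1 hc
    rw [h.dv, sub_ap, C_apply, sub_eq_zero] at h1
    rw [h1]
    exact Ns_iff.1 h2
  · rintro rfl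
    exact ⟨C ((f : ℂ → ℂ) p), Co_C _, h.dv.2 (by rw [sub_ap, C_apply, sub_self]), Ns_iff.2 rfl⟩

lemma one_eq : (1 : HS) = C ((1 : ℝ) : ℂ) := rfl

lemma Cmul (a b : ℝ) : C (a : ℂ) * C (b : ℂ) = C ((a * b : ℝ) : ℂ) := by
  rw [← map_mul, Complex.ofReal_mul]

lemma Csub (r : ℝ) : 1 - C (r : ℂ) = C ((1 - r : ℝ) : ℂ) := by
  rw [Complex.ofReal_sub, map_sub]; rfl

lemma NF_iff {f : HS} : NF f ↔ NA (f : ℂ → ℂ) := by
  constructor
  · rintro ⟨φ, q, n, r0, hq, hn, hr0, hr01, hφ, h⟩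
    obtain ⟨q', hq⟩ := Ir_iff.1 hq
    obtain ⟨k, hk, rfl⟩ := Pw_one.1 hn
    obtain ⟨r0, rfl⟩ := Rl_iff.1 hr0
    rw [one_eq, Le_iff, not_le] at hr01
    refine ⟨φ, dif φ, q', hq.1, k, hk, r0, hr01, fun p hp => ?_, fun r h1 h2 => ?_⟩
    · obtain ⟨π, hπ⟩ := exists_Pt hp
      have := hφ π (Ir_iff.2 ⟨p, hπ⟩) _ (hπ.V_iff.2 rfl)
      rwa [one_eq, Le_iff, not_le] at this
    · obtain ⟨E, hE, h3, h4⟩ := h (C r) (Rl_iff.2 ⟨r, rfl⟩) (by rwa [Le_iff, not_le])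
        (by rwa [one_eq, Le_iff, not_le])
      refine ⟨E, dif E, U_iff.1 hE, fun p hp hle => ?_, ?_⟩
      · obtain ⟨π, hπ⟩ := exists_Pt hp
        have := h3 π (Ir_iff.2 ⟨p, hπ⟩) _ _ _ (hπ.V_iff.2 rfl) (hπ.V_iff.2 rfl) (hπ.V_iff.2 rfl)
          (by rwa [Cmul, Le_iff])
        rwa [one_eq, Le_iff, Le_iff] at this
      · have h5 : ((1 - r : ℝ) : ℂ) ≠ 0 := Complex.ofReal_ne_zero.2 (by linarith)
        have := h4 (C (((1 - r) ^ k : ℝ) : ℂ)) _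
          (by rw [Csub, Pw_iff h5]; exact ⟨k, hk, rfl, by rw [Complex.ofReal_pow]⟩)
          (hq.V_iff.2 rfl)
        rwa [Cmul, one_eq, Le_iff] at this
  · rintro ⟨φ, hφd, q, hq, k, hk, r0, hr0, hφ, h⟩
    obtain ⟨φ', hφ'⟩ := exists_mk hφd
    obtain ⟨q', hq'⟩ := exists_Pt hq
    refine ⟨φ', q', C k, C r0, Ir_iff.2 ⟨q, hq'⟩, Pw_one.2 ⟨k, hk, rfl⟩, Rl_iff.2 ⟨r0, rfl⟩,
      by rwa [one_eq, Le_iff, not_le], fun π hπ s hs => ?_, fun r hr h1 h2 => ?_⟩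
    · obtain ⟨p, hπ⟩ := Ir_iff.1 hπ
      rw [hπ.V_iff.1 hs, one_eq, Le_iff, not_le, hφ' p hπ.1]
      exact hφ p hπ.1
    · obtain ⟨r, rfl⟩ := Rl_iff.1 hr
      rw [Le_iff, not_le] at h1
      rw [one_eq, Le_iff, not_le] at h2
      obtain ⟨E, hEd, hE0, h3, h4⟩ := h r h1 h2
      obtain ⟨E', hE'⟩ := exists_mk hEd
      refine ⟨E', U_iff.2 fun z hz => by rw [hE' z hz]; exact hE0 z hz,
        fun π hπ s1 s2 s3 hs1 hs2 hs3 hle => ?_, fun y s hy hs => ?_⟩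
      · obtain ⟨p, hπ⟩ := Ir_iff.1 hπ
        rw [hπ.V_iff.1 hs1, Cmul, Le_iff, hφ' p hπ.1] at hle
        rw [hπ.V_iff.1 hs2, hπ.V_iff.1 hs3, one_eq, Le_iff, Le_iff, hE' p hπ.1]
        exact h3 p hπ.1 hle
      · have h5 : ((1 - r : ℝ) : ℂ) ≠ 0 := Complex.ofReal_ne_zero.2 (by linarith)
        rw [Csub, Pw_iff h5] at hy
        obtain ⟨k', -, hk', rfl⟩ := hy
        have hkk : k = k' := by exact_mod_cast C_inj.1 hk'
        rw [hq'.V_iff.1 hs, ← Complex.ofReal_pow, Cmul, one_eq, Le_iff, hE' q hq, ← hkk]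
        exact h4

end Pool.Agent.H.MP_5f3cbe_lc
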